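import Pool.Agent.P.MP_246241_nt.IS.Iface

namespace Pool.Agent.P.MP_246241_nt.IS

open NumberField

lemma ent0 {n : ℕ} (α : Fin n → ℝ) (t : ℝ) (γ : Matrix (Option (Fin n)) (Option (Fin n)) ℤ)
    (j : Option (Fin n)) :
    (flow n t * uni α * γ.map fun x : ℤ => (x : ℝ)) none j = Real.exp (-t) * γ none j := by
  rw [Matrix.mul_assoc, flow, Matrix.diagonal_mul, Matrix.mul_apply, Fintype.sum_option]
  simp [uni]

lemma ent1 {n : ℕ} (α : Fin n → ℝ) (t : ℝ) (γ : Matrix (Option (Fin n)) (Option (Fin n)) ℤ)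
    (i : Fin n) (j : Option (Fin n)) :
    (flow n t * uni α * γ.map fun x : ℤ => (x : ℝ)) (some i) j =
      Real.exp (t / n) * (α i * γ none j - γ (some i) j) := by
  rw [Matrix.mul_assoc, flow, Matrix.diagonal_mul, Matrix.mul_apply, Fintype.sum_option]
  simp [uni, sub_eq_add_neg]

theorem fin (hF : S_FRAME) (hE : S_END) (n : ℕ) (hn : 1 ≤ n) (α : Fin n → ℝ) (K : Type) [Field K]
    [NumberField K] (b : Module.Basis (Option (Fin n)) ℚ K) (φ₀ : K →+* ℂ)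
    (hφ : ComplexEmbedding.IsReal φ₀) (g : Matrix (Option (Fin n)) (Option (Fin n)) ℝ)
    (c : Option (Fin n) → (K →+* ℂ) → ℂ) (hg : ∀ i j, (g i j : ℂ) = ∑ φ, c i φ * φ (b j))
    (h0 : ∀ φ, φ ≠ φ₀ → c none φ = 0) (h1 : ∀ i, c (some i) φ₀ = 0)
    (hacc : ∀ δ : ℝ, 0 < δ → ∃ (t : ℝ) (γ : Matrix (Option (Fin n)) (Option (Fin n)) ℤ),
      γ.det ≠ 0 ∧ ∀ i j, |(flow n t * uni α * γ.map fun x : ℤ => (x : ℝ)) i j - g i j| < δ)
    (p : ℕ) (hp : p.Prime) :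
    ∀ ε : ℝ, 0 < ε → ∀ N : ℕ, ∃ k : ℕ, N ≤ k ∧ 0 < k ∧
      ∀ i : Fin n,
        ((k : ℝ) * ((padicNorm p (k : ℚ) : ℚ) : ℝ)) ^ ((1 : ℝ) / (n : ℝ)) *
          |(k : ℝ) * α i - ((round ((k : ℝ) * α i) : ℤ) : ℝ)| < ε := by
  refine hE n hn α p hp (hF n hn α K b φ₀ hφ g c hg h0 h1 (fun δ hδ => ?_) p hp)
  obtain ⟨t, γ, hγ, h⟩ := hacc δ hδ
  refine ⟨t, γ, ?_, fun j => ?_, fun i j => ?_⟩
  · by_contra h'
    push Not at h'
    exact hγ (Matrix.det_eq_zero_of_row_eq_zero none h')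
  · rw [← ent0 α]; exact h none j
  · rw [← ent1]; exact h (some i) j

end Pool.Agent.P.MP_246241_nt.IS
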