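import Pool.Agent.P.MP_246241_nt.IS.Iface

/-! Step COORD. -/

set_option autoImplicit false
set_option linter.unusedSectionVars false

namespace Pool.Agent.P.MP_246241_nt.IS

open NumberField

theorem p_COORD :
    S_COORD := by
  classical
  intro K _ _ ι _ b
  let b' := (Algebra.traceForm ℚ K).dualBasis (traceForm_nondegenerate ℚ K) b
  have S0 : 0 ≤ ∑ j, ∑ σ : K →ₐ[ℚ] ℂ, ‖σ (b' j)‖ := by positivity
  refine ⟨1 + ∑ j, ∑ σ : K →ₐ[ℚ] ℂ, ‖σ (b' j)‖, by linarith, fun y B hB j => ?_⟩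
  have B0 : 0 ≤ B := by
    obtain ⟨φ⟩ : Nonempty (K →+* ℂ) := inferInstance
    exact (norm_nonneg _).trans (hB φ)
  have e : b.repr y j = Algebra.trace ℚ K (b' j * y) := by
    have h : ∀ i, Algebra.traceForm ℚ K (b' j) (b i) = if i = j then 1 else 0 := fun i =>
      LinearMap.BilinForm.apply_dualBasis_left _ b j i
    rw [← Algebra.traceForm_apply]
    conv_rhs => rw [← b.sum_repr y, map_sum]
    simp only [map_smul, h, smul_eq_mul, mul_ite, mul_one, mul_zero, Finset.sum_ite_eq',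
      Finset.mem_univ, if_true]
  have e2 : (((b.repr y j : ℚ) : ℝ) : ℂ) = ∑ σ : K →ₐ[ℚ] ℂ, σ (b' j * y) := by
    rw [← trace_eq_sum_embeddings ℂ, ← e]; simp
  rw [← Real.norm_eq_abs, ← Complex.norm_real, e2]
  refine (norm_sum_le _ _).trans ?_
  have h1 : ∀ σ : K →ₐ[ℚ] ℂ, ‖σ (b' j * y)‖ ≤ ‖σ (b' j)‖ * B := fun σ => by
    rw [map_mul, norm_mul]
    exact mul_le_mul_of_nonneg_left (hB σ.toRingHom) (norm_nonneg _)
  refine (Finset.sum_le_sum fun σ _ => h1 σ).trans ?_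
  rw [← Finset.sum_mul]
  refine mul_le_mul_of_nonneg_right ?_ B0
  have := Finset.single_le_sum (f := fun j => ∑ σ : K →ₐ[ℚ] ℂ, ‖σ (b' j)‖)
    (fun _ _ => by positivity) (Finset.mem_univ j)
  linarith

end Pool.Agent.P.MP_246241_nt.IS
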