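import Pool.Agent.P.MP_246241_nt.IS.Iface

/-! Step DEN. -/

set_option autoImplicit false
set_option linter.unusedSectionVars false

namespace Pool.Agent.P.MP_246241_nt.IS

open NumberField

theorem p_DEN :
    S_DEN := by
  classical
  intro K _ _ ι _ e he
  let o := RingOfIntegers.basis K
  choose c hc using fun j => he (o j : K)
  refine ⟨∏ j, ∏ i, (c j i).den, Finset.prod_pos fun j _ => Finset.prod_pos fun i _ =>
    (c j i).den_pos, fun x => ?_⟩
  have h : ∀ j i, ∃ m : ℤ, ((∏ j, ∏ i, (c j i).den : ℕ) : ℚ) * c j i = m := fun j i => by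
    obtain ⟨k, hk⟩ : (c j i).den ∣ ∏ j, ∏ i, (c j i).den :=
      (Finset.dvd_prod_of_mem (fun i => (c j i).den) (Finset.mem_univ i)).trans
        (Finset.dvd_prod_of_mem (fun j => ∏ i, (c j i).den) (Finset.mem_univ j))
    refine ⟨k * (c j i).num, ?_⟩
    rw [hk]
    push_cast
    rw [mul_comm ((c j i).den : ℚ), mul_assoc, Rat.den_mul_eq_num]
  choose m hm using h
  generalize (∏ j, ∏ i, (c j i).den : ℕ) = N at hm
  have hm' : ∀ j i, (N : K) * (c j i : K) = m j i := fun j i => by
    have := congrArg (fun q : ℚ => (q : K)) (hm j i)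
    simpa using this
  refine ⟨fun i => ∑ j, o.repr x j * m j i, ?_⟩
  have hx : (x : K) = ∑ j, (o.repr x j : K) * (o j : K) := by
    conv_lhs => rw [← o.sum_repr x]
    simp [map_sum]
  rw [hx]
  simp only [hc, Finset.mul_sum, Int.cast_sum, Int.cast_mul, Finset.sum_mul, ← hm']
  rw [Finset.sum_comm]
  refine Finset.sum_congr rfl fun i _ => Finset.sum_congr rfl fun j _ => by ring

end Pool.Agent.P.MP_246241_nt.IS
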