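import Pool.Agent.P.MP_246241_nt.IS.Iface

/-! Step END. -/

set_option autoImplicit false
set_option linter.unusedSectionVars false

namespace Pool.Agent.P.MP_246241_nt.IS

open NumberField

theorem p_END :
    S_END := by
  intro n hn α p hp H ε hε N
  have hn0 : (0 : ℝ) < n := by exact_mod_cast hn
  obtain ⟨q, z, m, A, B, hm, hq0, hdvd, hA, hB, hq, hr, hAB⟩ := H (ε ^ n / 2) (by positivity) N
  have hp1 : (1 : ℝ) < p := by exact_mod_cast hp.one_lt
  have hpm : (0 : ℝ) < (p : ℝ) ^ m := by positivity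
  have hkpos : 0 < q.natAbs := Int.natAbs_pos.2 hq0
  have hdvd' : p ^ m ∣ q.natAbs := Int.natCast_dvd.1 (by exact_mod_cast hdvd)
  have hkq : ((q.natAbs : ℕ) : ℝ) = |(q : ℝ)| := by
    rw [← Int.cast_natCast, Int.natCast_natAbs, Int.cast_abs]
  refine ⟨q.natAbs, ?_, hkpos, fun i => ?_⟩
  · have h1 := Nat.le_of_dvd hkpos hdvd'
    have h2 : m < p ^ m := Nat.lt_pow_self hp.one_lt
    omega
  · have : Fact p.Prime := ⟨hp⟩
    have hnorm : ((padicNorm p ((q.natAbs : ℕ) : ℚ) : ℚ) : ℝ) ≤ ((p : ℝ) ^ m)⁻¹ := by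
      have h1 : ((p ^ m : ℕ) : ℤ) ∣ ((q.natAbs : ℕ) : ℤ) := Int.natCast_dvd_natCast.2 hdvd'
      have h2 := (padicNorm.dvd_iff_norm_le (p := p) (n := m) (z := ((q.natAbs : ℕ) : ℤ))).1 h1
      rw [Int.cast_natCast, _root_.zpow_neg, _root_.zpow_natCast] at h2
      have h3 := (Rat.cast_le (K := ℝ)).2 h2
      simpa using h3
    have hnorm0 : (0 : ℝ) ≤ ((padicNorm p ((q.natAbs : ℕ) : ℚ) : ℚ) : ℝ) := by
      exact_mod_cast padicNorm.nonneg _
    have hround : |((q.natAbs : ℕ) : ℝ) * α i - ((round (((q.natAbs : ℕ) : ℝ) * α i) : ℤ) : ℝ)| ≤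
        B := by
      refine le_trans ?_ (hr i)
      rw [hkq]
      rcases abs_cases (q : ℝ) with h | h
      · rw [h.1]; exact round_le _ _
      · rw [h.1]
        refine le_trans (round_le _ (-z i)) (le_of_eq ?_)
        rw [← abs_neg]
        congr 1
        push_cast
        ring
    have hbase : ((q.natAbs : ℕ) : ℝ) * ((padicNorm p ((q.natAbs : ℕ) : ℚ) : ℚ) : ℝ) <
        (ε / B) ^ n := by
      have h1 : ((q.natAbs : ℕ) : ℝ) * ((padicNorm p ((q.natAbs : ℕ) : ℚ) : ℚ) : ℝ) ≤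
          A * ((p : ℝ) ^ m)⁻¹ := mul_le_mul (hkq ▸ hq) hnorm hnorm0 hA.le
      refine lt_of_le_of_lt h1 ?_
      rw [div_pow, ← div_eq_mul_inv, div_lt_div_iff₀ hpm (by positivity)]
      have h3 : 0 < ε ^ n * (p : ℝ) ^ m := by positivity
      linarith
    have hroot : (((q.natAbs : ℕ) : ℝ) * ((padicNorm p ((q.natAbs : ℕ) : ℚ) : ℚ) : ℝ)) ^
        ((1 : ℝ) / (n : ℝ)) < ε / B := by
      have h1 := Real.rpow_lt_rpow (by positivity) hbase (show (0 : ℝ) < 1 / n by positivity)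
      rwa [one_div, Real.pow_rpow_inv_natCast (by positivity) (by omega), ← one_div] at h1
    calc _ ≤ _ := mul_le_mul_of_nonneg_left hround (Real.rpow_nonneg (by positivity) _)
      _ < ε / B * B := mul_lt_mul_of_pos_right hroot hB
      _ = ε := div_mul_cancel₀ _ hB.ne'

end Pool.Agent.P.MP_246241_nt.IS
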