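import Pool.Agent.P.MP_246241_nt.IS.Iface

/-! Step FRAME. -/

set_option autoImplicit false
set_option linter.unusedSectionVars false

namespace Pool.Agent.P.MP_246241_nt.IS

open NumberField

namespace FRAMEA

lemma row {K ι : Type} [Field K] [NumberField K] [Fintype ι] (b : ι → K) (g : ι → ℝ)
    (c : (K →+* ℂ) → ℂ) (hg : ∀ j, (g j : ℂ) = ∑ φ, c φ * φ (b j)) (v : ι → ℤ) (y : K)
    (hy : y = ∑ j, (v j : K) * b j) (M : ℝ) (hM : ∀ φ, c φ ≠ 0 → ‖φ y‖ ≤ M) :
    |∑ j, g j * v j| ≤ (∑ φ, ‖c φ‖) * M := by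
  have h1 : ((∑ j, g j * v j : ℝ) : ℂ) = ∑ φ, c φ * φ y := by
    push_cast
    simp_rw [hg, hy, map_sum, map_mul, map_intCast, Finset.sum_mul, Finset.mul_sum]
    rw [Finset.sum_comm]
    refine Finset.sum_congr rfl fun φ _ => Finset.sum_congr rfl fun j _ => by ring
  rw [← Real.norm_eq_abs, ← Complex.norm_real, h1, Finset.sum_mul]
  refine (norm_sum_le _ _).trans (Finset.sum_le_sum fun φ _ => ?_)
  rw [norm_mul]
  by_cases h : c φ = 0
  · simp [h]
  · exact mul_le_mul_of_nonneg_left (hM φ h) (norm_nonneg _)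

lemma err {ι : Type} [Fintype ι] (f g : ι → ℝ) (v : ι → ℤ) (δ M : ℝ) (h : ∀ j, |f j - g j| < δ)
    (hv : ∀ j, |(v j : ℝ)| ≤ M) :
    |∑ j, f j * v j| ≤ |∑ j, g j * v j| + Fintype.card ι * (δ * M) := by
  have h1 : ∑ j, f j * v j = ∑ j, g j * v j + ∑ j, (f j - g j) * v j := by
    rw [← Finset.sum_add_distrib]
    exact Finset.sum_congr rfl fun j _ => by ring
  rw [h1]
  refine (abs_add_le _ _).trans (add_le_add le_rfl ?_)
  refine (Finset.abs_sum_le_sum_abs _ _).trans ?_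
  have := Finset.sum_le_card_nsmul Finset.univ (fun j => |(f j - g j) * v j|) (δ * M) fun j _ => by
    rw [abs_mul]
    exact mul_le_mul (h j).le (hv j) (abs_nonneg _) ((abs_nonneg _).trans (h j).le)
  simpa using this

end FRAMEA

theorem p_FRAME (hCORE : S_CORE) (hDEN : S_DEN) (hCOORD : S_COORD) :
    S_FRAME := by
  intro n hn α K _ _ b φ₀ hφ g c hg h0 h1 hacc p hp η hη r
  classical
  have hK : Module.finrank ℚ K = n + 1 := by
    rw [Module.finrank_eq_card_basis b]; simp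
  obtain ⟨c₀, hc₀, hden⟩ := hDEN K (Option (Fin n)) b fun y =>
    ⟨b.repr y, by
      conv_lhs => rw [← b.sum_repr y]
      simp [Rat.smul_def]⟩
  choose v hv using hden
  have hvr : ∀ x j, ((v x j : ℤ) : ℚ) = b.repr ((c₀ : K) * (x : K)) j := by
    intro x j
    have : (c₀ : K) * (x : K) = ∑ i, ((v x i : ℤ) : ℚ) • b i := by
      rw [hv]; simp [Rat.smul_def]
    rw [this, b.repr_sum_self]
  have hvadd : ∀ x y j, v (x + y) j = v x j + v y j := by
    intro x y j
    have : ((v (x + y) j : ℤ) : ℚ) = ((v x j + v y j : ℤ) : ℚ) := by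
      push_cast
      rw [hvr, hvr, hvr]
      simp [mul_add]
    exact_mod_cast this
  obtain ⟨C, hC, hco⟩ := hCOORD K (Option (Fin n)) b
  set S : ℝ := ∑ i, ∑ φ, ‖c i φ‖ with hS
  have hSi : ∀ i, ∑ φ, ‖c i φ‖ ≤ S := fun i =>
    Finset.single_le_sum (f := fun i => ∑ φ, ‖c i φ‖)
      (fun _ _ => Finset.sum_nonneg fun _ _ => norm_nonneg _) (Finset.mem_univ i)
  have hS0 : 0 ≤ S := Finset.sum_nonneg fun _ _ => Finset.sum_nonneg fun _ _ => norm_nonneg _
  have hc₀' : (0 : ℝ) < c₀ := by exact_mod_cast hc₀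
  set D : ℝ := (S + (n + 1) * C) * c₀ with hD
  have hD0 : 0 < D := by positivity
  obtain ⟨Θ, hΘ, hcore⟩ := hCORE K n hn hK φ₀ hφ p hp (η / D ^ (n + 1)) (by positivity) r
  obtain ⟨t, γ, ⟨j₀, hj₀⟩, hγ0, hγ1⟩ := hacc (1 + Θ)⁻¹ (by positivity)
  let L : 𝓞 K →+ ℤ := AddMonoidHom.mk' (fun x => ∑ j, γ none j * v x j) fun x y => by
    simp only [hvadd, mul_add, Finset.sum_add_distrib]
  have hL : L ≠ 0 := by
    intro h
    obtain ⟨N, hN, hint'⟩ := exists_integral_multiples ℤ ℚ ({b j₀} : Finset K)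
    have hint := hint' _ (Finset.mem_singleton_self _)
    obtain ⟨x, hxe⟩ : ∃ x : 𝓞 K, (x : K) = N • b j₀ := ⟨⟨N • b j₀, hint⟩, rfl⟩
    have hx' : ∑ j, γ none j * v x j = 0 := DFunLike.congr_fun h x
    have hq : ∑ j, (γ none j : ℚ) * ((v x j : ℤ) : ℚ) = 0 := by
      exact_mod_cast hx'
    have hval : (c₀ : K) * (x : K) = ((c₀ : ℚ) * N) • b j₀ := by
      rw [hxe]
      simp [Rat.smul_def, mul_assoc]
    simp only [hvr, hval, map_smul, b.repr_self, Finsupp.smul_apply, Finsupp.single_apply,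
      smul_eq_mul, mul_ite, mul_one, mul_zero, Finset.sum_ite_eq, Finset.mem_univ, if_true] at hq
    have h2 : (γ none j₀ : ℚ) ≠ 0 := by exact_mod_cast hj₀
    have h3 : (c₀ : ℚ) ≠ 0 := by exact_mod_cast hc₀.ne'
    have h4 : (N : ℚ) ≠ 0 := by exact_mod_cast hN
    exact mul_ne_zero h2 (mul_ne_zero h3 h4) hq
  obtain ⟨x, m, a, e, hrm, hx0, hxd, ha, he, hae, hae1, hae2, hbox⟩ := hcore L hL
  have hLx : L x = ∑ j, γ none j * v x j := rfl
  have hn0 : (0 : ℝ) < n := by exact_mod_cast hn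
  have hsc : ∀ (φ : K →+* ℂ) (M : ℝ), ‖φ (x : K)‖ ≤ M → ‖φ ((c₀ : K) * (x : K))‖ ≤ c₀ * M := by
    intro φ M h
    rw [map_mul, norm_mul, map_natCast, Complex.norm_natCast]
    exact mul_le_mul_of_nonneg_left h hc₀'.le
  have hcoord : ∀ M : ℝ, a ≤ M → e ≤ M → ∀ j, |(v x j : ℝ)| ≤ C * (c₀ * M) := by
    intro M h2 h3 j
    have := hco ((c₀ : K) * (x : K)) (c₀ * M) (fun φ => hsc φ M (by
      by_cases h : φ = φ₀
      · rw [h]; exact hbox.1.trans h2
      · exact (hbox.2 φ h).trans h3)) j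
    rwa [← hvr, Rat.cast_intCast] at this
  have hcard : (Fintype.card (Option (Fin n)) : ℝ) = n + 1 := by simp
  have hkey : ∀ (i : Option (Fin n)) (f : Option (Fin n) → ℝ) (M : ℝ), 0 < M → a ≤ (1 + Θ) * M →
      e ≤ (1 + Θ) * M → (∀ j, |f j - g i j| < (1 + Θ)⁻¹) →
      (∀ φ, c i φ ≠ 0 → ‖φ (x : K)‖ ≤ M) → |∑ j, f j * v x j| ≤ D * M := by
    intro i f M hM h2 h3 hf hφ'
    have e1 := FRAMEA.err f (g i) (v x) _ _ hf (hcoord _ h2 h3)
    have e2 := FRAMEA.row b (g i) (c i) (hg i) (v x) _ (hv x) (c₀ * M)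
      fun φ h => hsc φ M (hφ' φ h)
    have e3 : (1 + Θ)⁻¹ * (C * (c₀ * ((1 + Θ) * M))) = C * (c₀ * M) := by field_simp
    rw [hcard, e3] at e1
    have e4 := mul_le_mul_of_nonneg_right (hSi i) (show 0 ≤ c₀ * M by positivity)
    calc _ ≤ S * (c₀ * M) + (n + 1) * (C * (c₀ * M)) := by linarith
      _ = D * M := by rw [hD]; ring
  have hA := hkey none (fun j => Real.exp (-t) * γ none j) a ha (by nlinarith) (by nlinarith) hγ0
    fun φ h => by
      have : φ = φ₀ := by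
        by_contra h'
        exact h (h0 φ h')
      rw [this]; exact hbox.1
  have hB := fun i => hkey (some i) (fun j => Real.exp (t / n) * (α i * γ none j - γ (some i) j)) e he
    (by nlinarith) (by nlinarith) (hγ1 i) fun φ h => hbox.2 φ fun h' => h (by rw [h']; exact h1 i)
  refine ⟨L x, fun i => ∑ j, γ (some i) j * v x j, m, Real.exp t * (D * a),
    Real.exp (-(t / n)) * (D * e), hrm, hx0, hxd, by positivity, by positivity, ?_, fun i => ?_, ?_⟩
  · have : ∑ j, Real.exp (-t) * γ none j * v x j = Real.exp (-t) * (L x : ℝ) := by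
      rw [hLx]; push_cast
      rw [Finset.mul_sum]
      exact Finset.sum_congr rfl fun j _ => by ring
    rw [this, abs_mul, abs_of_pos (Real.exp_pos _), Real.exp_neg,
      inv_mul_le_iff₀ (Real.exp_pos _)] at hA
    exact hA
  · have h2 := hB i
    have : ∑ j, Real.exp (t / n) * (α i * γ none j - γ (some i) j) * v x j =
        Real.exp (t / n) * ((L x : ℝ) * α i - ((∑ j, γ (some i) j * v x j : ℤ) : ℝ)) := by
      rw [hLx]; push_cast
      rw [Finset.sum_mul, ← Finset.sum_sub_distrib, Finset.mul_sum]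
      exact Finset.sum_congr rfl fun j _ => by ring
    rw [this, abs_mul, abs_of_pos (Real.exp_pos _), ← le_inv_mul_iff₀ (Real.exp_pos _),
      ← Real.exp_neg] at h2
    exact h2
  · have h2 : Real.exp t * Real.exp (-(t / n)) ^ n = 1 := by
      rw [← Real.exp_nat_mul, ← Real.exp_add]
      have : t + n * -(t / n) = 0 := by field_simp; ring
      rw [this, Real.exp_zero]
    calc _ = (Real.exp t * Real.exp (-(t / n)) ^ n) * (D ^ (n + 1) * (a * e ^ n)) := by ring
      _ ≤ D ^ (n + 1) * (η / D ^ (n + 1) * (p : ℝ) ^ m) := by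
          rw [h2, one_mul]; exact mul_le_mul_of_nonneg_left hae (by positivity)
      _ = _ := by field_simp

end Pool.Agent.P.MP_246241_nt.IS
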