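import Pool.Agent.P.MP_246241_nt.IS.Iface

/-! Step GEN. -/

set_option autoImplicit false
set_option linter.unusedSectionVars false

namespace Pool.Agent.P.MP_246241_nt.IS

open NumberField IntermediateField

theorem p_GEN :
    S_GEN := by
  intro K _ _ φ₀ θ h
  constructor
  · have h1 : ℚ⟮θ⟯ = ⊤ := by
      rw [Field.primitive_element_iff_algHom_eq_of_eval ℚ ℂ
        (fun x => IsAlgClosed.splits _) θ φ₀.toRatAlgHom]
      intro ψ hψ
      by_contra hne
      refine h ψ.toRingHom (fun e => hne ?_) hψ.symm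
      ext x
      exact (congrArg (fun f : K →+* ℂ => f x) e).symm
    let pb : PowerBasis ℚ K :=
      (adjoin.powerBasis (Algebra.IsIntegral.isIntegral (R := ℚ) θ)).map
        ((equivOfEq h1).trans topEquiv)
    have hgen : pb.gen = θ := rfl
    refine ⟨pb.dim, fun y => ⟨fun i => pb.basis.repr y i, ?_⟩⟩
    conv_lhs => rw [← pb.basis.sum_repr y]
    refine Finset.sum_congr rfl fun i _ => ?_
    rw [pb.basis_eq_pow, hgen, Rat.smul_def]
  · intro h2 c hc
    have h3 : 1 < Fintype.card (K →+* ℂ) := by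
      rw [NumberField.Embeddings.card K ℂ]
      omega
    obtain ⟨φ, hφ⟩ := Fintype.exists_ne_of_one_lt_card h3 φ₀
    refine h φ hφ ?_
    rw [hc, map_ratCast, map_ratCast]

end Pool.Agent.P.MP_246241_nt.IS
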