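import Pool.Agent.P.MP_246241_nt.IS.Iface

/-! Step HENS. -/

set_option autoImplicit false
set_option linter.unusedSectionVars false

namespace Pool.Agent.P.MP_246241_nt.IS

open NumberField

namespace HENSA

variable {O : Type} [CommRing O]

theorem gp (p : ℕ) (θ : O) (k : ℕ) : ∃ t, (1 + (p : O) ^ 2 * θ) ^ k = 1 + (p : O) ^ 2 * t := by
  induction k with
  | zero => exact ⟨0, by simp⟩
  | succ k ih =>
    obtain ⟨t, ht⟩ := ih
    exact ⟨t + θ + (p : O) ^ 2 * t * θ, by rw [pow_succ, ht]; ring⟩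

theorem add (p : ℕ) (F : O →+ ℤ) (t x : O) :
    F ((1 + (p : O) ^ 2 * t) * x) = F x + (p : ℤ) ^ 2 * F (t * x) := by
  have : (1 + (p : O) ^ 2 * t) * x = x + (p ^ 2 : ℕ) • (t * x) := by
    rw [nsmul_eq_mul]
    push_cast
    ring
  rw [this, map_add, map_nsmul, nsmul_eq_mul]
  push_cast
  rfl

theorem pw (p : ℕ) (L : O →+ ℤ) (h : O) (hh : ∀ i : ℕ, ∃ t, h ^ i = 1 + (p : O) ^ 2 * t) (μ : ℤ)
    (hμ : (p : ℤ) ^ 2 ∣ μ - 1) (P : ℤ) (hP : P ≠ 0) (Q : O → ℤ)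
    (hQ : ∀ x, L (h * x) = μ * L x + P * Q x) (x : O) (i : ℕ) :
    ∃ S : ℤ, L (h ^ i * x) = μ ^ i * L x + P * S ∧ (p : ℤ) ^ 2 ∣ S - i * Q x := by
  induction i with
  | zero => exact ⟨0, by simp, by simp⟩
  | succ i ih =>
    obtain ⟨S, h1, c, h2⟩ := ih
    obtain ⟨t, ht⟩ := hh i
    obtain ⟨d, hd⟩ := hμ
    have h3 : Q (h ^ i * x) = Q x + (p : ℤ) ^ 2 * Q (t * x) := by
      apply mul_left_cancel₀ hP
      have e1 := hQ (h ^ i * x)
      have e2 := add p L t (h * x)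
      have e3 := add p L t x
      rw [mul_left_comm h, ht, e2, e3, mul_left_comm t, hQ, hQ] at e1
      rw [ht]
      linear_combination -e1
    refine ⟨μ * S + Q (h ^ i * x), ?_, d * S + c + Q (t * x), ?_⟩
    · rw [pow_succ', mul_assoc, hQ, h1]
      ring
    · rw [h3]
      push_cast
      linear_combination S * hd + h2

end HENSA

open HENSA in
theorem p_HENS :
    S_HENS := by
  intro O _ θ p hp L R m lam x₀ hL h0 hR
  have hp0 : (p : ℤ) ≠ 0 := by exact_mod_cast hp.ne_zero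
  have hg : ∀ j i : ℕ, ∃ t, ((1 + (p : O) ^ 2 * θ) ^ p ^ j) ^ i = 1 + (p : O) ^ 2 * t :=
    fun j i => by
      rw [← pow_mul]
      exact gp p θ _
  have inv : ∀ j : ℕ, ∃ (μ : ℤ) (Q : O → ℤ), (p : ℤ) ^ 2 ∣ μ - 1 ∧
      (∀ x, L ((1 + (p : O) ^ 2 * θ) ^ p ^ j * x) = μ * L x + (p : ℤ) ^ (m + 2 + j) * Q x) ∧
      ∀ x, (p : ℤ) ∣ Q x - R x := by
    intro j
    induction j with
    | zero =>
      refine ⟨1 + (p : ℤ) ^ 2 * lam, R, by simp, fun x => ?_, by simp⟩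
      rw [pow_zero, pow_one, add, hL]
      ring
    | succ j ih =>
      obtain ⟨μ, Q, h1, h2, h3⟩ := ih
      choose S h4 c h5 using fun x => pw p L _ (hg j) μ h1 _ (pow_ne_zero _ hp0) Q h2 x p
      refine ⟨μ ^ p, fun x => Q x + p * c x, h1.trans (sub_one_dvd_pow_sub_one μ p), fun x => ?_,
        fun x => ?_⟩
      · rw [pow_succ p j, pow_mul, h4]
        linear_combination (p : ℤ) ^ (m + 2 + j) * h5 x
      · rw [add_sub_right_comm]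
        exact (h3 x).add (dvd_mul_right _ _)
  have key : ∀ j s : ℕ, (p : ℤ) ^ (m + 2 + j) ∣ L ((1 + (p : O) ^ 2 * θ) ^ s * x₀) → ∃ A : ℤ,
      ∀ i : ℕ, ∃ (s' : ℕ) (B : ℤ), L ((1 + (p : O) ^ 2 * θ) ^ s' * x₀) = (p : ℤ) ^ (m + 2 + j) * B ∧
        (p : ℤ) ∣ B - (A + i * R x₀) := by
    rintro j s ⟨A, hA⟩
    obtain ⟨μ, Q, h1, h2, h3⟩ := inv j
    refine ⟨A, fun i => ?_⟩
    obtain ⟨S, h4, c, h5⟩ := pw p L _ (hg j) μ h1 _ (pow_ne_zero _ hp0) Q h2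
      ((1 + (p : O) ^ 2 * θ) ^ s * x₀) i
    obtain ⟨d, hd⟩ := h1.trans (sub_one_dvd_pow_sub_one μ i)
    obtain ⟨e, he⟩ := h3 ((1 + (p : O) ^ 2 * θ) ^ s * x₀)
    obtain ⟨t, ht⟩ := gp p θ s
    have h6 := add p R t x₀
    rw [← ht] at h6
    refine ⟨p ^ j * i + s, μ ^ i * A + S, ?_, p * d * A + p * c + i * e + i * p * R (t * x₀), ?_⟩
    · rw [pow_add, pow_mul, mul_assoc, h4, hA]
      ring
    · linear_combination A * hd + h5 + i * he + i * h6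
  have ex : ∀ j : ℕ, ∃ s : ℕ, (p : ℤ) ^ (m + 2 + j) ∣ L ((1 + (p : O) ^ 2 * θ) ^ s * x₀) := by
    intro j
    induction j with
    | zero => exact ⟨0, by simpa using h0⟩
    | succ j ih =>
      obtain ⟨s, hs⟩ := ih
      obtain ⟨A, hA⟩ := key j s hs
      haveI := Fact.mk hp
      obtain ⟨s', B, h1, h2⟩ := hA (-(A : ZMod p) / (R x₀ : ℤ)).val
      have h3 : ((R x₀ : ℤ) : ZMod p) ≠ 0 := fun h =>
        hR ((ZMod.intCast_zmod_eq_zero_iff_dvd _ _).1 h)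
      have h4 : (p : ℤ) ∣ A + ((-(A : ZMod p) / (R x₀ : ℤ)).val : ℕ) * R x₀ := by
        rw [← ZMod.intCast_zmod_eq_zero_iff_dvd, Int.cast_add, Int.cast_mul, Int.cast_natCast,
          ZMod.natCast_zmod_val, div_mul_cancel₀ _ h3, add_neg_cancel]
      refine ⟨s', ?_⟩
      rw [h1, ← add_assoc, pow_succ]
      exact mul_dvd_mul_left _ (by simpa using h2.add h4)
  intro j
  obtain ⟨s, hs⟩ := ex j
  obtain ⟨A, hA⟩ := key j s hs
  have fin : ∀ i : ℕ, ¬ (p : ℤ) ∣ A + i * R x₀ → ∃ s : ℕ,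
      (p : ℤ) ^ (m + 2 + j) ∣ L ((1 + (p : O) ^ 2 * θ) ^ s * x₀) ∧
      ¬ (p : ℤ) ^ (m + 3 + j) ∣ L ((1 + (p : O) ^ 2 * θ) ^ s * x₀) := fun i hi => by
    obtain ⟨s', B, h1, h2⟩ := hA i
    refine ⟨s', ⟨B, h1⟩, fun h => hi ?_⟩
    rw [h1, show m + 3 + j = m + 2 + j + 1 by omega, pow_succ,
      mul_dvd_mul_iff_left (pow_ne_zero _ hp0)] at h
    simpa using h.sub h2
  by_cases h : (p : ℤ) ∣ A
  · exact fin 1 fun h' => hR (by simpa using h'.sub h)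
  · exact fin 0 (by simpa using h)

end Pool.Agent.P.MP_246241_nt.IS
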