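import Pool.Agent.P.MP_246241_nt.IS.Iface

/-! Step MAX. -/

set_option autoImplicit false
set_option linter.unusedSectionVars false

namespace Pool.Agent.P.MP_246241_nt.IS

open NumberField

theorem p_MAX :
    S_MAX := by
  classical
  rintro K _ _ θ hθ p hp L ⟨x₁, h1⟩
  have hp0 : (p : ℤ) ≠ 0 := by exact_mod_cast hp.ne_zero
  have hL1 : L x₁ ≠ 0 := fun h => h1 (h ▸ dvd_zero _)
  have hz : ∀ (c : ℤ) (x : 𝓞 K), L ((c : 𝓞 K) * x) = c * L x := fun c x => by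
    rw [← zsmul_eq_mul, map_zsmul, smul_eq_mul]
  have hex : ∃ e : ℕ, ¬ ∃ lam : ℤ, ∀ x, (p : ℤ) ^ (e + 1) ∣ L (θ * x) - lam * L x := by
    by_contra hc
    push Not at hc
    have h2 : ∀ x, L (θ * x) * L x₁ - L (θ * x₁) * L x = 0 := fun x => by
      by_contra hne
      obtain ⟨lam, hl⟩ := hc (L (θ * x) * L x₁ - L (θ * x₁) * L x).natAbs
      have h3 : (p : ℤ) ^ ((L (θ * x) * L x₁ - L (θ * x₁) * L x).natAbs + 1) ∣
          L (θ * x) * L x₁ - L (θ * x₁) * L x := by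
        have := ((hl x).mul_right (L x₁)).sub ((hl x₁).mul_right (L x))
        rwa [show (L (θ * x) - lam * L x) * L x₁ - (L (θ * x₁) - lam * L x₁) * L x =
          L (θ * x) * L x₁ - L (θ * x₁) * L x by ring] at this
      generalize L (θ * x) * L x₁ - L (θ * x₁) * L x = D at hne h3
      have h4 : p ^ (D.natAbs + 1) ∣ D.natAbs := by
        rw [← Int.natCast_dvd]
        exact_mod_cast h3
      have h5 := Nat.le_of_dvd (Int.natAbs_pos.2 hne) h4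
      have h6 := Nat.lt_pow_self (n := D.natAbs + 1) hp.one_lt
      omega
    have hβ : ((L x₁ : ℤ) : 𝓞 K) * θ - ((L (θ * x₁) : ℤ) : 𝓞 K) ≠ 0 := fun h => by
      refine hθ ((L (θ * x₁) : ℚ) / (L x₁ : ℚ)) ?_
      have h3 := congrArg (algebraMap (𝓞 K) K) (sub_eq_zero.1 h)
      rw [map_mul, map_intCast, map_intCast] at h3
      have h4 : ((L x₁ : ℤ) : K) ≠ 0 := by exact_mod_cast hL1
      push_cast
      rw [eq_div_iff h4, mul_comm]
      exact h3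
    have h3 := Ideal.absNorm_mem (Ideal.span {((L x₁ : ℤ) : 𝓞 K) * θ - ((L (θ * x₁) : ℤ) : 𝓞 K)})
    have h4 : Ideal.absNorm (Ideal.span {((L x₁ : ℤ) : 𝓞 K) * θ - ((L (θ * x₁) : ℤ) : 𝓞 K)}) ≠ 0 := by
      rwa [Ne, Ideal.absNorm_eq_zero_iff, Ideal.span_singleton_eq_bot]
    generalize Ideal.absNorm (Ideal.span
      {((L x₁ : ℤ) : 𝓞 K) * θ - ((L (θ * x₁) : ℤ) : 𝓞 K)}) = N at h3 h4
    obtain ⟨b, hb⟩ := Ideal.mem_span_singleton'.1 h3
    have h5 := hz N x₁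
    rw [Int.cast_natCast, ← hb, show b * (((L x₁ : ℤ) : 𝓞 K) * θ - ((L (θ * x₁) : ℤ) : 𝓞 K)) * x₁ =
      ((L x₁ : ℤ) : 𝓞 K) * (θ * (b * x₁)) - ((L (θ * x₁) : ℤ) : 𝓞 K) * (b * x₁) by ring,
      map_sub, hz, hz, mul_comm (L x₁), h2] at h5
    exact mul_ne_zero (by exact_mod_cast h4) hL1 h5.symm
  obtain ⟨m, ⟨lam, hm⟩, hm'⟩ : ∃ m : ℕ, (∃ lam : ℤ, ∀ x, (p : ℤ) ^ m ∣ L (θ * x) - lam * L x) ∧
      ¬ ∃ lam : ℤ, ∀ x, (p : ℤ) ^ (m + 1) ∣ L (θ * x) - lam * L x := by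
    refine ⟨Nat.find hex, ?_, Nat.find_spec hex⟩
    rcases h : Nat.find hex with _ | k
    · exact ⟨0, fun x => by simp⟩
    · exact not_not.1 (Nat.find_min hex (by omega : k < Nat.find hex))
  choose r hr using hm
  have hadd : ∀ x y, r (x + y) = r x + r y := fun x y => by
    apply mul_left_cancel₀ (pow_ne_zero m hp0)
    rw [mul_add, ← hr, ← hr, ← hr, mul_add, map_add, map_add]
    ring
  obtain ⟨R, hR⟩ : ∃ R : 𝓞 K →+ ℤ, ∀ x, L (θ * x) = lam * L x + (p : ℤ) ^ m * R x :=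
    ⟨AddMonoidHom.mk' r hadd, fun x => by
      rw [AddMonoidHom.mk'_apply, ← hr]
      ring⟩
  by_contra hc
  push Not at hc
  have hc' := fun x => hc m lam R x hR
  obtain ⟨u, v, huv⟩ : IsCoprime ((p : ℤ) ^ (m + 2)) (L x₁) :=
    ((Nat.prime_iff_prime_int.1 hp).irreducible.coprime_iff_not_dvd.2 h1).pow_left
  refine hm' ⟨lam + (p : ℤ) ^ m * R (v • x₁), fun x => ?_⟩
  obtain ⟨c, h2⟩ := hc' (x - L x • v • x₁) ⟨u * L x, by
    rw [map_sub, map_zsmul, map_zsmul, smul_eq_mul, smul_eq_mul]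
    linear_combination -L x * huv⟩
  rw [map_sub, map_zsmul, smul_eq_mul] at h2
  exact ⟨c, by rw [hR]; linear_combination (p : ℤ) ^ m * h2⟩

end Pool.Agent.P.MP_246241_nt.IS
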