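import Pool.Agent.P.MP_246241_nt.IS.Iface

/-! Step REC. -/

set_option autoImplicit false
set_option linter.unusedSectionVars false

namespace Pool.Agent.P.MP_246241_nt.IS

open NumberField Filter Topology

theorem p_REC :
    S_REC := by
  intro V _ _ _ Γ _ _ w δ T hδ
  classical
  let B := (Module.Free.chooseBasis ℤ Γ).ofZLatticeBasis ℝ Γ
  have hspan : Submodule.span ℤ (Set.range B) = Γ := Module.Basis.ofZLatticeBasis_span ℝ Γ _
  let T' : ℝ := max T 1
  let x : ℕ → V := fun j => ZSpan.fract B (((j : ℝ) * T') • w)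
  have : ProperSpace V := FiniteDimensional.proper_real V
  have hx : ∀ j, x j ∈ Metric.closedBall (0 : V) (∑ i, ‖B i‖) := fun j => by
    rw [mem_closedBall_zero_iff]
    exact ZSpan.norm_fract_le B _
  obtain ⟨v, -, φ, hφ, hlim⟩ := (isCompact_closedBall (0 : V) _).tendsto_subseq hx
  obtain ⟨n, hn⟩ := Metric.tendsto_atTop.1 hlim (δ / 2) (half_pos hδ)
  have h1 := hn n le_rfl
  have h2 := hn (n + 1) (Nat.le_succ n)
  have hlt : φ n < φ (n + 1) := hφ (Nat.lt_succ_self n)
  have hlt' : (φ n : ℝ) + 1 ≤ φ (n + 1) := by exact_mod_cast hlt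
  refine ⟨(ZSpan.floor B (((φ (n + 1) : ℝ) * T') • w) : V) -
      (ZSpan.floor B (((φ n : ℝ) * T') • w) : V), ?_,
    (φ (n + 1) : ℝ) * T' - (φ n : ℝ) * T', ?_, ?_⟩
  · exact hspan.le (Submodule.sub_mem _ (Subtype.prop _) (Subtype.prop _))
  · have h3 : T ≤ T' := le_max_left _ _
    have h4 : (1 : ℝ) ≤ T' := le_max_right _ _
    nlinarith
  · have h3 : (ZSpan.floor B (((φ (n + 1) : ℝ) * T') • w) : V) -
        (ZSpan.floor B (((φ n : ℝ) * T') • w) : V) -
        ((φ (n + 1) : ℝ) * T' - (φ n : ℝ) * T') • w = x (φ n) - x (φ (n + 1)) := by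
      simp only [x, ZSpan.fract_apply, sub_smul]
      abel
    rw [h3, ← dist_eq_norm]
    have h4 := dist_triangle_right (x (φ n)) (x (φ (n + 1))) v
    simp only [Function.comp] at h1 h2
    linarith

end Pool.Agent.P.MP_246241_nt.IS
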