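import Pool.Agent.P.MP_246241_nt.IS.Iface

/-! Step RED. -/

set_option autoImplicit false
set_option linter.unusedSectionVars false

namespace Pool.Agent.P.MP_246241_nt.IS

open NumberField

theorem p_RED :
    S_RED := by
  classical
  intro K _ _ θ d hθ k hk
  have k0 : (0 : ℚ) < k := by exact_mod_cast hk
  have S0 : 0 ≤ (k : ℝ) * ∑ φ : K →+* ℂ, ∑ i : Fin d, ‖φ (θ : K)‖ ^ (i : ℕ) := by positivity
  refine ⟨1 + k * ∑ φ : K →+* ℂ, ∑ i : Fin d, ‖φ (θ : K)‖ ^ (i : ℕ), by linarith,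
    fun τ x B hτ hB => ?_⟩
  have τ0 : (τ : K) ≠ 0 := by exact_mod_cast hτ
  obtain ⟨c, hc⟩ := hθ ((x : K) / τ)
  refine ⟨fun i => ⌊c i / k⌋, fun φ => ?_⟩
  have B0 : 0 ≤ B := (norm_nonneg _).trans (hB φ)
  have e : ((x - (k : 𝓞 K) * ∑ i, ((⌊c i / k⌋ : ℤ) : 𝓞 K) * θ ^ (i : ℕ) * τ : 𝓞 K) : K) =
      ∑ i : Fin d, ((c i - k * ⌊c i / k⌋ : ℚ) : K) * (θ : K) ^ (i : ℕ) * τ := by
    have hx : (x : K) = ∑ i, (c i : K) * (θ : K) ^ (i : ℕ) * τ := by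
      rw [← Finset.sum_mul, ← hc, div_mul_cancel₀ _ τ0]
    have e1 : ((x - (k : 𝓞 K) * ∑ i, ((⌊c i / k⌋ : ℤ) : 𝓞 K) * θ ^ (i : ℕ) * τ : 𝓞 K) : K) =
        (x : K) - k * ∑ i : Fin d, ((⌊c i / k⌋ : ℤ) : K) * (θ : K) ^ (i : ℕ) * τ := by
      simp [map_sum]
    rw [e1, hx, Finset.mul_sum, ← Finset.sum_sub_distrib]
    refine Finset.sum_congr rfl fun i _ => ?_
    push_cast
    ring
  rw [e, map_sum]
  refine (norm_sum_le _ _).trans ?_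
  have b : ∀ i : Fin d, ‖φ (((c i - k * ⌊c i / k⌋ : ℚ) : K) * (θ : K) ^ (i : ℕ) * τ)‖ ≤
      k * ‖φ (θ : K)‖ ^ (i : ℕ) * B := fun i => by
    rw [map_mul, map_mul, map_ratCast, map_pow, norm_mul, norm_mul, norm_pow, Complex.norm_ratCast]
    have a1 := Int.floor_le (c i / k)
    have a2 := Int.lt_floor_add_one (c i / k)
    rw [le_div_iff₀ k0] at a1
    rw [div_lt_iff₀ k0] at a2
    have a3 : |c i - k * ⌊c i / k⌋| ≤ k := by rw [abs_le]; constructor <;> nlinarith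
    have a4 : |((c i - k * ⌊c i / k⌋ : ℚ) : ℝ)| ≤ k := by exact_mod_cast a3
    gcongr
    exact hB φ
  refine (Finset.sum_le_sum fun i _ => b i).trans ?_
  rw [← Finset.sum_mul, ← Finset.mul_sum]
  refine mul_le_mul_of_nonneg_right ?_ B0
  have := Finset.single_le_sum (f := fun φ : K →+* ℂ => ∑ i : Fin d, ‖φ (θ : K)‖ ^ (i : ℕ))
    (fun _ _ => by positivity) (Finset.mem_univ φ)
  have := mul_le_mul_of_nonneg_left this (Nat.cast_nonneg (α := ℝ) k)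
  linarith

end Pool.Agent.P.MP_246241_nt.IS
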