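import Pool.Agent.P.MP_246241_nt.IS.Iface

/-! Step THUE. -/

set_option autoImplicit false
set_option linter.unusedSectionVars false

namespace Pool.Agent.P.MP_246241_nt.IS

open NumberField

theorem p_THUE :
    S_THUE := by
  classical
  intro K _ _ d hd
  let o := RingOfIntegers.basis K
  have hc : Fintype.card (Module.Free.ChooseBasisIndex ℤ (𝓞 K)) = d := by
    rw [← Module.finrank_eq_card_chooseBasisIndex, RingOfIntegers.rank, hd]
  have d0 : d ≠ 0 := by rw [← hd]; exact Module.finrank_pos.ne'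
  have S0 : 0 ≤ ∑ φ : K →+* ℂ, ∑ i, ‖φ (o i : K)‖ := by positivity
  refine ⟨1 + ∑ φ : K →+* ℂ, ∑ i, ‖φ (o i : K)‖, by linarith, fun L Q P hQ hP hQP => ?_⟩
  have : NeZero Q := ⟨hQ.ne'⟩
  obtain ⟨v, w, hvw, h⟩ := Fintype.exists_ne_map_eq_of_card_lt
    (fun v : Module.Free.ChooseBasisIndex ℤ (𝓞 K) → Fin (⌊P⌋₊ + 1) =>
      ((L (∑ i, ((v i : ℕ) : ℤ) • o i) : ℤ) : ZMod Q)) (by
      rw [ZMod.card, Fintype.card_fun, Fintype.card_fin, hc]
      have h1 : P ^ d < ((⌊P⌋₊ + 1 : ℕ) : ℝ) ^ d := by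
        refine pow_lt_pow_left₀ ?_ hP.le d0
        push_cast
        exact Nat.lt_floor_add_one P
      exact_mod_cast hQP.trans_lt h1)
  have e : ∑ i, (((v i : ℕ) : ℤ) - ((w i : ℕ) : ℤ)) • o i =
      ∑ i, ((v i : ℕ) : ℤ) • o i - ∑ i, ((w i : ℕ) : ℤ) • o i := by
    simp only [sub_smul, Finset.sum_sub_distrib]
  refine ⟨∑ i, (((v i : ℕ) : ℤ) - ((w i : ℕ) : ℤ)) • o i, fun h0 => hvw ?_, ?_, fun φ => ?_⟩
  · have := Fintype.linearIndependent_iff.1 o.linearIndependent _ h0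
    ext i
    have := this i
    omega
  · rw [e, map_sub]
    exact (ZMod.intCast_eq_intCast_iff_dvd_sub _ _ _).1 h.symm
  · have e2 : φ ((∑ i, (((v i : ℕ) : ℤ) - ((w i : ℕ) : ℤ)) • o i : 𝓞 K) : K) =
        ∑ i, ((((v i : ℕ) : ℝ) - ((w i : ℕ) : ℝ) : ℝ) : ℂ) * φ (o i : K) := by
      simp [map_sum]
    rw [e2]
    refine (norm_sum_le _ _).trans ?_
    have b : ∀ i, ‖((((v i : ℕ) : ℝ) - ((w i : ℕ) : ℝ) : ℝ) : ℂ) * φ (o i : K)‖ ≤
        ‖φ (o i : K)‖ * P := fun i => by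
      rw [norm_mul, mul_comm, Complex.norm_real, Real.norm_eq_abs]
      refine mul_le_mul_of_nonneg_left ?_ (norm_nonneg _)
      have a1 : ((v i : ℕ) : ℝ) ≤ P :=
        (Nat.cast_le.2 (Nat.lt_succ_iff.1 (v i).2)).trans (Nat.floor_le hP.le)
      have a2 : ((w i : ℕ) : ℝ) ≤ P :=
        (Nat.cast_le.2 (Nat.lt_succ_iff.1 (w i).2)).trans (Nat.floor_le hP.le)
      have a3 : (0 : ℝ) ≤ (v i : ℕ) := Nat.cast_nonneg _
      have a4 : (0 : ℝ) ≤ (w i : ℕ) := Nat.cast_nonneg _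
      rw [abs_le]; constructor <;> linarith
    refine (Finset.sum_le_sum fun i _ => b i).trans ?_
    rw [← Finset.sum_mul]
    refine mul_le_mul_of_nonneg_right ?_ hP.le
    have := Finset.single_le_sum (f := fun φ : K →+* ℂ => ∑ i, ‖φ (o i : K)‖)
      (fun _ _ => by positivity) (Finset.mem_univ φ)
    linarith

end Pool.Agent.P.MP_246241_nt.IS
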