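import Pool.Agent.P.MP_246241_nt.IS.Iface

/-! Step TUBE. -/

set_option autoImplicit false
set_option linter.unusedSectionVars false

namespace Pool.Agent.P.MP_246241_nt.IS

open NumberField

namespace TUBEA

variable {K : Type} [Field K] [NumberField K]

theorem fin (q : ℕ) (hq : 0 < q) : Finite (𝓞 K ⧸ Ideal.span {(q : 𝓞 K)}) :=
  Ideal.finiteQuotientOfFreeOfNeBot _ (by
    rw [Ne, Ideal.span_singleton_eq_bot]
    exact_mod_cast hq.ne')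

theorem pw (q : ℕ) (hq : 0 < q) : ∃ N : ℕ, 0 < N ∧ ∀ v : (𝓞 K)ˣ, ∃ o : 𝓞 K,
    (v : 𝓞 K) ^ N = 1 + (q : 𝓞 K) * o := by
  have := fin (K := K) q hq
  refine ⟨Nat.card (𝓞 K ⧸ Ideal.span {(q : 𝓞 K)})ˣ, Nat.card_pos, fun v => ?_⟩
  have h := congrArg Units.val (pow_card_eq_one'
    (x := Units.map (Ideal.Quotient.mk (Ideal.span {(q : 𝓞 K)})).toMonoidHom v))
  rw [Units.val_pow_eq_pow_val, Units.coe_map, Units.val_one, ← map_pow] at h
  obtain ⟨o, ho⟩ := Ideal.mem_span_singleton'.1 (Ideal.Quotient.eq.1 (h.trans (map_one _).symm))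
  exact ⟨o, by linear_combination -ho⟩

end TUBEA

open TUBEA in
theorem p_TUBE (hUNIT : S_UNIT) :
    S_TUBE := by
  classical
  intro K _ _ n hn hK φ₀ hφ p hp
  obtain ⟨C, γ, g1, g2, g3⟩ := hUNIT K n hn hK φ₀ hφ
  obtain ⟨N₀, hN₀, h0⟩ := pw (K := K) (p ^ 2) (by positivity)
  obtain ⟨θ, hθ⟩ := h0 γ
  rw [Nat.cast_pow] at hθ
  refine ⟨C, θ, fun φ hne e => ?_, fun q hq => ?_⟩
  · have h1 := congrArg (algebraMap (𝓞 K) K) hθ
    rw [map_pow, map_add, map_one, map_mul, map_pow, map_natCast] at h1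
    have h1' : ∀ ψ : K →+* ℂ, ψ ((γ : 𝓞 K) : K) ^ N₀ = 1 + (p : ℂ) ^ 2 * ψ (θ : K) := fun ψ => by
      have := congrArg ψ h1
      simp only [map_add, map_one, map_mul, map_pow, map_natCast] at this
      exact this
    have h2 : φ ((γ : 𝓞 K) : K) ^ N₀ = φ₀ ((γ : 𝓞 K) : K) ^ N₀ := by rw [h1', h1', e]
    have h3 := congrArg norm h2
    rw [norm_pow, norm_pow] at h3
    have h4 := pow_lt_one₀ (norm_nonneg _) (g2 φ hne) hN₀.ne'
    have h5 := one_lt_pow₀ g1 hN₀.ne'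
    linarith
  · obtain ⟨N, hN, h1⟩ := pw (K := K) q hq
    have := fin (K := K) q hq
    have := Fintype.ofFinite (𝓞 K ⧸ Ideal.span {(q : 𝓞 K)})
    have key : ∀ c : 𝓞 K ⧸ Ideal.span {(q : 𝓞 K)}, ∃ a b : ℝ, 0 < a ∧ 0 < b ∧ ∀ s : ℕ,
        Ideal.Quotient.mk _ ((1 + (p : 𝓞 K) ^ 2 * θ) ^ s) = c → a * b ^ n ≤ C ∧ ∃ o : 𝓞 K,
          Box φ₀ (((1 + (p : 𝓞 K) ^ 2 * θ) ^ s + (q : 𝓞 K) * o : 𝓞 K) : K) a b := fun c => by
      by_cases hc : ∃ s : ℕ, Ideal.Quotient.mk _ ((1 + (p : 𝓞 K) ^ 2 * θ) ^ s) = c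
      · obtain ⟨s₀, rfl⟩ := hc
        obtain ⟨v, a, b, a0, b0, k1, k2⟩ := g3 N (N₀ * s₀) hN
        obtain ⟨o, ho⟩ := h1 v
        refine ⟨a, b, a0, b0, fun s hs => ⟨k1, ?_⟩⟩
        obtain ⟨o', ho'⟩ := Ideal.mem_span_singleton'.1 (Ideal.Quotient.eq.1 hs)
        refine ⟨(1 + (p : 𝓞 K) ^ 2 * θ) ^ s₀ * o - o', ?_⟩
        rw [Units.val_mul, Units.val_pow_eq_pow_val, Units.val_pow_eq_pow_val, pow_mul, hθ,
          ho] at k2
        convert k2 using 2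
        linear_combination -ho'
      · exact ⟨1, 1, one_pos, one_pos, fun s hs => (hc ⟨s, hs⟩).elim⟩
    choose a b a0 b0 h2 using key
    have pos : ∀ c, 0 < a c / b c + b c / a c := fun c =>
      add_pos (div_pos (a0 c) (b0 c)) (div_pos (b0 c) (a0 c))
    have le : ∀ c, a c / b c + b c / a c ≤ ∑ c, (a c / b c + b c / a c) := fun c =>
      Finset.single_le_sum (fun c _ => (pos c).le) (Finset.mem_univ c)
    refine ⟨∑ c, (a c / b c + b c / a c), (pos 0).trans_le (le 0), fun s => ?_⟩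
    obtain ⟨k1, o, k2⟩ := h2 _ s rfl
    refine ⟨o, _, _, a0 _, b0 _, k1, ?_, ?_, k2⟩
    · rw [← div_le_iff₀ (b0 _)]
      exact (le_add_of_nonneg_right (div_pos (b0 _) (a0 _)).le).trans (le _)
    · rw [← div_le_iff₀ (a0 _)]
      exact (le_add_of_nonneg_left (div_pos (a0 _) (b0 _)).le).trans (le _)

end Pool.Agent.P.MP_246241_nt.IS
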