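import Pool.Agent.P.MP_246241_nt.IS.Iface

/-! Step UNIT. -/

set_option autoImplicit false
set_option linter.unusedSectionVars false

namespace Pool.Agent.P.MP_246241_nt.IS

open NumberField

namespace UNITA

open NumberField.Units NumberField.Units.dirichletUnitTheorem NumberField.InfinitePlace

variable {K : Type} [Field K] [NumberField K]

open scoped Classical in
theorem log_sub_le (ω : InfinitePlace K → ℝ) (hω : ∑ w : InfinitePlace K, (mult w : ℝ) * ω w = 0)
    (x : (𝓞 K)ˣ) (t : ℝ)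
    (h : ‖logEmbedding K (Additive.ofMul x) -
      t • (fun w : {w : InfinitePlace K // w ≠ w₀} => (mult w.1 : ℝ) * ω w.1)‖ ≤ 1)
    (w : InfinitePlace K) :
    |Real.log (w (x : K)) - t * ω w| ≤ Fintype.card (InfinitePlace K) := by
  have tool : ∀ w : InfinitePlace K, |Real.log (w (x : K)) - t * ω w| ≤
      |(mult w : ℝ) * (Real.log (w (x : K)) - t * ω w)| := fun w => by
    rw [abs_mul, Nat.abs_cast]
    refine le_mul_of_one_le_left (abs_nonneg _) ?_
    rw [mult]; split_ifs <;> norm_num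
  have comp : ∀ w : {w : InfinitePlace K // w ≠ w₀},
      |(mult w.1 : ℝ) * (Real.log (w.1 (x : K)) - t * ω w.1)| ≤ 1 := fun w => by
    have := (norm_le_pi_norm _ w).trans h
    rw [Pi.sub_apply, logEmbedding_component, Pi.smul_apply, smul_eq_mul, Real.norm_eq_abs] at this
    refine le_trans (le_of_eq ?_) this
    congr 1; ring
  refine (tool w).trans ?_
  by_cases hw : w = w₀
  · subst hw
    have h1 : ∑ w : InfinitePlace K, (mult w : ℝ) * (Real.log (w (x : K)) - t * ω w) = 0 := by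
      have e : ∀ w : InfinitePlace K, (mult w : ℝ) * (Real.log (w (x : K)) - t * ω w) =
          mult w * Real.log (w (x : K)) - t * (mult w * ω w) := fun w => by ring
      simp_rw [e]
      rw [Finset.sum_sub_distrib, ← Finset.mul_sum, hω, sum_mult_mul_log x]; simp
    rw [Fintype.sum_eq_add_sum_subtype_ne _ w₀, add_eq_zero_iff_eq_neg] at h1
    rw [h1, abs_neg]
    refine (Finset.abs_sum_le_sum_abs _ _).trans ((Finset.sum_le_sum fun w _ => comp w).trans ?_)
    simp only [Finset.sum_const, Finset.card_univ, nsmul_eq_mul, mul_one, Nat.cast_le]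
    exact Fintype.card_subtype_le _
  · exact (comp ⟨w, hw⟩).trans (Nat.one_le_cast.mpr Fintype.card_pos)

end UNITA

open NumberField.Units NumberField.Units.dirichletUnitTheorem NumberField.InfinitePlace in
theorem p_UNIT (hLINE : S_LINE) (hREC : S_REC) :
    S_UNIT := by
  classical
  intro K _ _ n hn hK φ₀ hφ₀
  have n0 : (0 : ℝ) < n := by exact_mod_cast hn
  let ω : InfinitePlace K → ℝ := fun w => if w = mk φ₀ then 1 else -1 / n
  have hm : mult (mk φ₀) = 1 := by rw [mult, if_pos (isReal_mk_iff.2 hφ₀)]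
  have hω : ∑ w : InfinitePlace K, (mult w : ℝ) * ω w = 0 := by
    have e : ∀ w : InfinitePlace K, (mult w : ℝ) * ω w =
        (mult w : ℝ) * (-1 / n) + if w = mk φ₀ then 1 + 1 / (n : ℝ) else 0 := fun w => by
      simp only [ω]
      split_ifs with h
      · rw [h, hm]; push_cast; ring
      · ring
    have s : ∑ w : InfinitePlace K, (mult w : ℝ) = n + 1 := by
      have := sum_mult_eq (K := K)
      rw [hK] at this
      exact_mod_cast this
    simp_rw [e]
    rw [Finset.sum_add_distrib, ← Finset.sum_mul, s, Finset.sum_ite_eq']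
    simp only [Finset.mem_univ, if_true]
    field_simp
    ring
  have hne : ∀ φ : K →+* ℂ, φ ≠ φ₀ → mk φ ≠ mk φ₀ := fun φ hφ h => by
    rcases mk_eq_iff.1 h.symm with h | h
    · exact hφ h.symm
    · exact hφ (by rw [← h]; exact ComplexEmbedding.isReal_iff.1 hφ₀)
  set W : logSpace K := fun w : {w : InfinitePlace K // w ≠ w₀} => (mult w.1 : ℝ) * ω w.1 with hW
  set D : ℝ := (Fintype.card (InfinitePlace K) : ℝ) with hD
  have D0 : 0 ≤ D := Nat.cast_nonneg _
  have box : ∀ (x : (𝓞 K)ˣ) (t : ℝ), ‖logEmbedding K (Additive.ofMul x) - t • W‖ ≤ 1 →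
      |Real.log ‖φ₀ ((x : 𝓞 K) : K)‖ - t| ≤ D ∧
        ∀ φ : K →+* ℂ, φ ≠ φ₀ → |Real.log ‖φ ((x : 𝓞 K) : K)‖ + t / n| ≤ D := by
    intro x t h
    constructor
    · have := UNITA.log_sub_le ω hω x t h (mk φ₀)
      simpa [ω, InfinitePlace.apply] using this
    · intro φ hφ
      have := UNITA.log_sub_le ω hω x t h (mk φ)
      simp only [ω, if_neg (hne φ hφ), InfinitePlace.apply] at this
      rwa [show t * (-1 / n) = -(t / n) by ring, sub_neg_eq_add] at this
  have pos : ∀ (x : (𝓞 K)ˣ) (φ : K →+* ℂ), 0 < ‖φ ((x : 𝓞 K) : K)‖ := fun x φ =>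
    norm_pos_iff.2 ((map_ne_zero φ).2 (by exact_mod_cast x.ne_zero))
  obtain ⟨δ₀, hδ₀, hL⟩ := hLINE (logSpace K) (unitLattice K).toAddSubgroup W
  obtain ⟨u, hu, t, ht, hut⟩ := hREC (logSpace K) (unitLattice K) W (min δ₀ 1) (n * D + 1)
    (lt_min hδ₀ one_pos)
  obtain ⟨g, -, hg⟩ := id hu
  have hg' : logEmbedding K (Additive.ofMul g.toMul) = u := hg
  obtain ⟨b1, b2⟩ := box g.toMul t (by rw [hg']; exact hut.le.trans (min_le_right _ _))
  have n1 : (1 : ℝ) ≤ n := by exact_mod_cast hn
  refine ⟨Real.exp ((n + 1) * D), g.toMul, ?_, fun φ hφ => ?_, fun N s hN => ?_⟩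
  · rw [← Real.log_pos_iff (pos _ _).le]
    have := (abs_le.1 b1).1
    nlinarith
  · rw [← Real.log_neg_iff (pos _ _)]
    have := (abs_le.1 (b2 φ hφ)).2
    have h2 : D < t / n := by rw [lt_div_iff₀ n0]; linarith
    linarith
  · obtain ⟨u', hu', t', h'⟩ := hL u hu t (hut.trans_le (min_le_left _ _)) N hN (1 / (s + 1))
      (by positivity)
    obtain ⟨v, -, hv⟩ := hu'
    have hv' : logEmbedding K v = u' := hv
    have e : logEmbedding K (Additive.ofMul (g.toMul ^ s * ((v.toMul)⁻¹ ^ s) ^ N)) -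
        (s * t') • W = (s : ℝ) • (u - (N : ℝ) • u' - t' • W) := by
      simp only [ofMul_mul, ofMul_pow, ofMul_inv, map_add, map_nsmul, map_neg, ofMul_toMul, hv']
      have : logEmbedding K g = u := hg
      simp only [this, ← Nat.cast_smul_eq_nsmul ℝ]
      module
    obtain ⟨c1, c2⟩ := box (g.toMul ^ s * ((v.toMul)⁻¹ ^ s) ^ N) (s * t') (by
      rw [e, norm_smul, Real.norm_natCast]
      have := mul_le_mul_of_nonneg_left h'.le (Nat.cast_nonneg (α := ℝ) s)
      refine this.trans ?_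
      rw [mul_one_div, div_le_one (by positivity)]; linarith)
    refine ⟨(v.toMul)⁻¹ ^ s, Real.exp (s * t' + D), Real.exp (-(s * t' / n) + D), Real.exp_pos _,
      Real.exp_pos _, le_of_eq ?_, ?_, fun φ hφ => ?_⟩
    · rw [← Real.exp_nat_mul, ← Real.exp_add]
      congr 1
      field_simp
      ring
    · rw [← Real.log_le_iff_le_exp (pos _ _)]
      linarith [(abs_le.1 c1).2]
    · rw [← Real.log_le_iff_le_exp (pos _ _)]
      linarith [(abs_le.1 (c2 φ hφ)).2]

end Pool.Agent.P.MP_246241_nt.IS
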