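import Pool.Agent.P.MP_246241_nt.IS.TLINE
import Pool.Agent.P.MP_246241_nt.IS.TREC
import Pool.Agent.P.MP_246241_nt.IS.TUNIT
import Pool.Agent.P.MP_246241_nt.IS.TTUBE
import Pool.Agent.P.MP_246241_nt.IS.TGEN
import Pool.Agent.P.MP_246241_nt.IS.TDEN
import Pool.Agent.P.MP_246241_nt.IS.TMAX
import Pool.Agent.P.MP_246241_nt.IS.TTHUE
import Pool.Agent.P.MP_246241_nt.IS.TRED
import Pool.Agent.P.MP_246241_nt.IS.THENS
import Pool.Agent.P.MP_246241_nt.IS.TCORE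
import Pool.Agent.P.MP_246241_nt.IS.TCOORD
import Pool.Agent.P.MP_246241_nt.IS.TFRAME
import Pool.Agent.P.MP_246241_nt.IS.TEND
import Pool.Agent.P.MP_246241_nt.IS.Fin

namespace Pool.Agent.P.MP_246241_nt.IS

theorem q_CORE : S_CORE :=
  p_CORE (p_TUBE (p_UNIT p_LINE p_REC)) p_GEN p_DEN p_MAX p_THUE p_RED p_HENS

theorem q_FRAME : S_FRAME := p_FRAME q_CORE p_DEN p_COORD

end Pool.Agent.P.MP_246241_nt.IS
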