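import Mathlib

namespace Pool.Agent.P.MP_246241_nt.IS

/-- the diagonal flow `a_t = diag(e^(t/n), ..., e^(t/n), e^(-t))`; the index `none` is the last one -/
noncomputable def flow (n : ℕ) (t : ℝ) : Matrix (Option (Fin n)) (Option (Fin n)) ℝ :=
  Matrix.diagonal fun i => Option.elim i (Real.exp (-t)) fun _ => Real.exp (t / n)

/-- the matrix `u_α` sending `(r, q)` to `(q α - r, q)` -/
def uni {n : ℕ} (α : Fin n → ℝ) : Matrix (Option (Fin n)) (Option (Fin n)) ℝ :=
  Matrix.of fun i j => Option.elim i (Option.elim j 1 fun _ => 0) fun a =>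
    Option.elim j (α a) fun b => if a = b then -1 else 0

end Pool.Agent.P.MP_246241_nt.IS
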