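import Pool.Agent.P.MP_246241_nt.IS.Defs

namespace Pool.Agent.P.MP_246241_nt.IS

open NumberField

/-- `x` has size at most `a` at `φ₀` and at most `b` at the other embeddings -/
def Box {K : Type} [Field K] (φ₀ : K →+* ℂ) (x : K) (a b : ℝ) : Prop :=
  ‖φ₀ x‖ ≤ a ∧ ∀ φ : K →+* ℂ, φ ≠ φ₀ → ‖φ x‖ ≤ b

-- deps:
def S_LINE : Prop :=
  ∀ (V : Type) [NormedAddCommGroup V] [NormedSpace ℝ V] [FiniteDimensional ℝ V]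
    (Γ : AddSubgroup V) (w : V), ∃ δ₀ : ℝ, 0 < δ₀ ∧ ∀ u ∈ Γ, ∀ t : ℝ, ‖u - t • w‖ < δ₀ →
      ∀ N : ℕ, 0 < N → ∀ δ : ℝ, 0 < δ → ∃ u' ∈ Γ, ∃ t' : ℝ, ‖u - (N : ℝ) • u' - t' • w‖ < δ

-- deps:
def S_REC : Prop :=
  ∀ (V : Type) [NormedAddCommGroup V] [NormedSpace ℝ V] [FiniteDimensional ℝ V]
    (Γ : Submodule ℤ V) [DiscreteTopology Γ] [IsZLattice ℝ Γ] (w : V) (δ T : ℝ), 0 < δ →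
      ∃ u ∈ Γ, ∃ t : ℝ, T ≤ t ∧ ‖u - t • w‖ < δ

-- deps: LINE REC
def S_UNIT : Prop :=
  ∀ (K : Type) [Field K] [NumberField K] (n : ℕ), 1 ≤ n → Module.finrank ℚ K = n + 1 →
    ∀ φ₀ : K →+* ℂ, ComplexEmbedding.IsReal φ₀ → ∃ (C : ℝ) (γ : (𝓞 K)ˣ),
      1 < ‖φ₀ ((γ : 𝓞 K) : K)‖ ∧ (∀ φ : K →+* ℂ, φ ≠ φ₀ → ‖φ ((γ : 𝓞 K) : K)‖ < 1) ∧
      ∀ N s : ℕ, 0 < N → ∃ (v : (𝓞 K)ˣ) (a b : ℝ), 0 < a ∧ 0 < b ∧ a * b ^ n ≤ C ∧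
        Box φ₀ (((γ ^ s * v ^ N : (𝓞 K)ˣ) : 𝓞 K) : K) a b

-- deps: UNIT
def S_TUBE : Prop :=
  ∀ (K : Type) [Field K] [NumberField K] (n : ℕ), 1 ≤ n → Module.finrank ℚ K = n + 1 →
    ∀ φ₀ : K →+* ℂ, ComplexEmbedding.IsReal φ₀ → ∀ p : ℕ, 0 < p → ∃ (C : ℝ) (θ : 𝓞 K),
      (∀ φ : K →+* ℂ, φ ≠ φ₀ → φ (θ : K) ≠ φ₀ (θ : K)) ∧
      ∀ q : ℕ, 0 < q → ∃ Θ : ℝ, 0 < Θ ∧ ∀ s : ℕ, ∃ (o : 𝓞 K) (a b : ℝ), 0 < a ∧ 0 < b ∧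
        a * b ^ n ≤ C ∧ a ≤ Θ * b ∧ b ≤ Θ * a ∧
        Box φ₀ (((1 + (p : 𝓞 K) ^ 2 * θ) ^ s + (q : 𝓞 K) * o : 𝓞 K) : K) a b

-- deps:
def S_GEN : Prop :=
  ∀ (K : Type) [Field K] [NumberField K] (φ₀ : K →+* ℂ) (θ : K),
    (∀ φ : K →+* ℂ, φ ≠ φ₀ → φ θ ≠ φ₀ θ) →
      (∃ d : ℕ, ∀ y : K, ∃ c : Fin d → ℚ, y = ∑ i, (c i : K) * θ ^ (i : ℕ)) ∧
      (2 ≤ Module.finrank ℚ K → ∀ c : ℚ, θ ≠ (c : K))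

-- deps:
def S_DEN : Prop :=
  ∀ (K : Type) [Field K] [NumberField K] (ι : Type) [Fintype ι] (e : ι → K),
    (∀ y : K, ∃ c : ι → ℚ, y = ∑ i, (c i : K) * e i) →
      ∃ c₀ : ℕ, 0 < c₀ ∧ ∀ o : 𝓞 K, ∃ a : ι → ℤ, (c₀ : K) * (o : K) = ∑ i, (a i : K) * e i

-- deps:
def S_MAX : Prop :=
  ∀ (K : Type) [Field K] [NumberField K] (θ : 𝓞 K), (∀ c : ℚ, (θ : K) ≠ (c : K)) →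
    ∀ p : ℕ, p.Prime → ∀ L : 𝓞 K →+ ℤ, (∃ x, ¬ (p : ℤ) ∣ L x) →
      ∃ (m : ℕ) (lam : ℤ) (R : 𝓞 K →+ ℤ) (x₀ : 𝓞 K),
        (∀ x, L (θ * x) = lam * L x + (p : ℤ) ^ m * R x) ∧ (p : ℤ) ^ (m + 2) ∣ L x₀ ∧
        ¬ (p : ℤ) ∣ R x₀

-- deps:
def S_THUE : Prop :=
  ∀ (K : Type) [Field K] [NumberField K] (d : ℕ), Module.finrank ℚ K = d →
    ∃ C : ℝ, 0 < C ∧ ∀ (L : 𝓞 K →+ ℤ) (Q : ℕ) (P : ℝ), 0 < Q → 0 < P → (Q : ℝ) ≤ P ^ d →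
      ∃ τ : 𝓞 K, τ ≠ 0 ∧ (Q : ℤ) ∣ L τ ∧ ∀ φ : K →+* ℂ, ‖φ (τ : K)‖ ≤ C * P

-- deps:
def S_RED : Prop :=
  ∀ (K : Type) [Field K] [NumberField K] (θ : 𝓞 K) (d : ℕ),
    (∀ y : K, ∃ c : Fin d → ℚ, y = ∑ i, (c i : K) * (θ : K) ^ (i : ℕ)) → ∀ k : ℕ, 0 < k →
      ∃ C : ℝ, 0 < C ∧ ∀ (τ x : 𝓞 K) (B : ℝ), τ ≠ 0 → (∀ φ : K →+* ℂ, ‖φ (τ : K)‖ ≤ B) →
        ∃ a : Fin d → ℤ, ∀ φ : K →+* ℂ,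
          ‖φ ((x - (k : 𝓞 K) * ∑ i, (a i : 𝓞 K) * θ ^ (i : ℕ) * τ : 𝓞 K) : K)‖ ≤ C * B

-- deps:
def S_HENS : Prop :=
  ∀ (O : Type) [CommRing O] (θ : O) (p : ℕ), p.Prime →
    ∀ (L R : O →+ ℤ) (m : ℕ) (lam : ℤ) (x₀ : O),
      (∀ x, L (θ * x) = lam * L x + (p : ℤ) ^ m * R x) → (p : ℤ) ^ (m + 2) ∣ L x₀ →
      ¬ (p : ℤ) ∣ R x₀ → ∀ j : ℕ, ∃ s : ℕ,
        (p : ℤ) ^ (m + 2 + j) ∣ L ((1 + (p : O) ^ 2 * θ) ^ s * x₀) ∧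
        ¬ (p : ℤ) ^ (m + 3 + j) ∣ L ((1 + (p : O) ^ 2 * θ) ^ s * x₀)

-- deps: TUBE GEN DEN MAX THUE RED HENS
def S_CORE : Prop :=
  ∀ (K : Type) [Field K] [NumberField K] (n : ℕ), 1 ≤ n → Module.finrank ℚ K = n + 1 →
    ∀ φ₀ : K →+* ℂ, ComplexEmbedding.IsReal φ₀ → ∀ p : ℕ, p.Prime → ∀ η : ℝ, 0 < η → ∀ r : ℕ,
      ∃ Θ : ℝ, 0 < Θ ∧ ∀ L : 𝓞 K →+ ℤ, L ≠ 0 → ∃ (x : 𝓞 K) (m : ℕ) (a b : ℝ), r ≤ m ∧ L x ≠ 0 ∧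
        (p : ℤ) ^ m ∣ L x ∧ 0 < a ∧ 0 < b ∧ a * b ^ n ≤ η * (p : ℝ) ^ m ∧ a ≤ Θ * b ∧
        b ≤ Θ * a ∧ Box φ₀ (x : K) a b

-- deps:
def S_COORD : Prop :=
  ∀ (K : Type) [Field K] [NumberField K] (ι : Type) [Fintype ι] (b : Module.Basis ι ℚ K),
    ∃ C : ℝ, 0 < C ∧ ∀ (y : K) (B : ℝ), (∀ φ : K →+* ℂ, ‖φ y‖ ≤ B) →
      ∀ j, |((b.repr y j : ℚ) : ℝ)| ≤ C * B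

-- deps: CORE DEN COORD
def S_FRAME : Prop :=
  ∀ (n : ℕ), 1 ≤ n → ∀ (α : Fin n → ℝ) (K : Type) [Field K] [NumberField K]
    (b : Module.Basis (Option (Fin n)) ℚ K) (φ₀ : K →+* ℂ), ComplexEmbedding.IsReal φ₀ →
    ∀ (g : Option (Fin n) → Option (Fin n) → ℝ) (c : Option (Fin n) → (K →+* ℂ) → ℂ),
    (∀ i j, (g i j : ℂ) = ∑ φ, c i φ * φ (b j)) → (∀ φ, φ ≠ φ₀ → c none φ = 0) →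
    (∀ i, c (some i) φ₀ = 0) →
    (∀ δ : ℝ, 0 < δ → ∃ (t : ℝ) (γ : Option (Fin n) → Option (Fin n) → ℤ), (∃ j, γ none j ≠ 0) ∧
      (∀ j, |Real.exp (-t) * γ none j - g none j| < δ) ∧
      ∀ i j, |Real.exp (t / n) * (α i * γ none j - γ (some i) j) - g (some i) j| < δ) →
    ∀ p : ℕ, p.Prime → ∀ η : ℝ, 0 < η → ∀ r : ℕ,
      ∃ (q : ℤ) (z : Fin n → ℤ) (m : ℕ) (A B : ℝ), r ≤ m ∧ q ≠ 0 ∧ (p : ℤ) ^ m ∣ q ∧ 0 < A ∧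
        0 < B ∧ |(q : ℝ)| ≤ A ∧ (∀ i, |(q : ℝ) * α i - z i| ≤ B) ∧ A * B ^ n ≤ η * (p : ℝ) ^ m

-- deps:
def S_END : Prop :=
  ∀ (n : ℕ), 1 ≤ n → ∀ (α : Fin n → ℝ) (p : ℕ), p.Prime →
    (∀ η : ℝ, 0 < η → ∀ r : ℕ,
      ∃ (q : ℤ) (z : Fin n → ℤ) (m : ℕ) (A B : ℝ), r ≤ m ∧ q ≠ 0 ∧ (p : ℤ) ^ m ∣ q ∧ 0 < A ∧
        0 < B ∧ |(q : ℝ)| ≤ A ∧ (∀ i, |(q : ℝ) * α i - z i| ≤ B) ∧ A * B ^ n ≤ η * (p : ℝ) ^ m) →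
    ∀ ε : ℝ, 0 < ε → ∀ N : ℕ, ∃ k : ℕ, N ≤ k ∧ 0 < k ∧
      ∀ i : Fin n,
        ((k : ℝ) * ((padicNorm p (k : ℚ) : ℚ) : ℝ)) ^ ((1 : ℝ) / (n : ℝ)) *
          |(k : ℝ) * α i - ((round ((k : ℝ) * α i) : ℤ) : ℝ)| < ε

end Pool.Agent.P.MP_246241_nt.IS
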