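import Pool.Agent.P.MP_246241_nt.IS.Iface

/-! Step CORE. -/

set_option autoImplicit false
set_option linter.unusedSectionVars false

namespace Pool.Agent.P.MP_246241_nt.IS

open NumberField

namespace COREA

lemma prim {O : Type} [AddCommGroup O] (p : ℕ) (hp : p.Prime) (L : O →+ ℤ) (hL : L ≠ 0) :
    ∃ (a : ℕ) (L₀ : O →+ ℤ), (∀ x, L x = (p : ℤ) ^ a * L₀ x) ∧ ∃ x, ¬ (p : ℤ) ∣ L₀ x := by
  classical
  have hex : ∃ a : ℕ, ¬ ∀ x, (p : ℤ) ^ (a + 1) ∣ L x := by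
    by_contra h
    push Not at h
    apply hL
    ext x
    by_contra hx
    have h1 := Int.le_of_dvd (abs_pos.2 hx) ((dvd_abs _ _).2 (h (L x).natAbs x))
    have h2 : (L x).natAbs + 1 < p ^ ((L x).natAbs + 1) := Nat.lt_pow_self hp.one_lt
    have h3 : (((L x).natAbs + 1 : ℕ) : ℤ) < ((p ^ ((L x).natAbs + 1) : ℕ) : ℤ) := by
      exact_mod_cast h2
    push_cast at h3
    linarith
  have hp0 : (p : ℤ) ≠ 0 := by exact_mod_cast hp.ne_zero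
  have hd : ∀ x, (p : ℤ) ^ (Nat.find hex) ∣ L x := by
    rcases h : Nat.find hex with _ | a
    · simp
    · have := Nat.find_min hex (show a < Nat.find hex by omega)
      exact not_not.1 this
  choose f hf using hd
  refine ⟨Nat.find hex, AddMonoidHom.mk' f fun x y => ?_, hf, ?_⟩
  · apply mul_left_cancel₀ (pow_ne_zero (Nat.find hex) hp0)
    rw [mul_add, ← hf, ← hf, ← hf, map_add]
  · obtain ⟨x, hx⟩ := not_forall.1 (Nat.find_spec hex)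
    refine ⟨x, fun h => hx ?_⟩
    have h' : (p : ℤ) ∣ f x := h
    rw [hf x, pow_succ]
    exact mul_dvd_mul_left _ h'

lemma stab {O : Type} [CommRing O] (θ : O) (L R : O →+ ℤ) (lam Q : ℤ)
    (h : ∀ x, L (θ * x) = lam * L x + Q * R x) (x : O) (hx : Q ∣ L x) (d : ℕ) (a : Fin d → ℤ) :
    Q ∣ L (∑ i, (a i : O) * θ ^ (i : ℕ) * x) := by
  have h1 : ∀ i : ℕ, Q ∣ L (θ ^ i * x) := by
    intro i
    induction i with
    | zero => simpa using hx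
    | succ i ih =>
      rw [pow_succ', mul_assoc, h]
      exact dvd_add (ih.mul_left _) (dvd_mul_right _ _)
  rw [map_sum]
  refine Finset.dvd_sum fun i _ => ?_
  rw [mul_assoc, ← zsmul_eq_mul, map_zsmul]
  exact (h1 i).mul_left _

end COREA

theorem p_CORE (hTUBE : S_TUBE) (hGEN : S_GEN) (hDEN : S_DEN) (hMAX : S_MAX) (hTHUE : S_THUE) (hRED : S_RED) (hHENS : S_HENS) :
    S_CORE := by
  intro K _ _ n hn hK φ₀ hφ p hp η hη r
  obtain ⟨C₀, θ, hθ, htube⟩ := hTUBE K n hn hK φ₀ hφ p hp.pos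
  obtain ⟨⟨d, hgen⟩, hirr⟩ := hGEN K φ₀ θ hθ
  have hirr' := hirr (by omega)
  obtain ⟨c₀, hc₀, hden⟩ := hDEN K (Fin d) (fun i => (θ : K) ^ (i : ℕ)) hgen
  obtain ⟨C₁, hC₁, hthue⟩ := hTHUE K (n + 1) hK
  obtain ⟨C₂, hC₂, hred⟩ := hRED K θ d hgen (p ^ 2) (pow_pos hp.pos 2)
  have hp1 : (1 : ℝ) < p := by exact_mod_cast hp.one_lt
  have hp0 : (0 : ℝ) < p := by linarith
  obtain ⟨j₀, hj₀⟩ := pow_unbounded_of_one_lt (C₀ * (C₂ * C₁) ^ (n + 1) / η) hp1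
  set j := j₀ + r with hj
  have hjj : C₀ * (C₂ * C₁) ^ (n + 1) ≤ η * (p : ℝ) ^ j := by
    rw [div_lt_iff₀ hη] at hj₀
    have : (p : ℝ) ^ j₀ ≤ (p : ℝ) ^ j := pow_le_pow_right₀ hp1.le (by omega)
    nlinarith
  obtain ⟨Θ, hΘ, hs⟩ := htube (p ^ (j + 3) * c₀) (Nat.mul_pos (pow_pos hp.pos _) hc₀)
  refine ⟨Θ, hΘ, fun L hL => ?_⟩
  obtain ⟨e, L₀, hL₀, hprim⟩ := COREA.prim p hp L hL
  obtain ⟨m, lam, R, x₀, hR, hx₀, hRx⟩ := hMAX K θ hirr' p hp L₀ hprim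
  set P : ℝ := ((p : ℝ) ^ m) ^ (((n + 1 : ℕ) : ℝ)⁻¹) with hP
  have hPpos : 0 < P := Real.rpow_pos_of_pos (by positivity) _
  have hPn : P ^ (n + 1) = (p : ℝ) ^ m :=
    Real.rpow_inv_natCast_pow (by positivity) (by omega)
  obtain ⟨τ, hτ0, hτd, hτ⟩ := hthue L₀ (p ^ m) P (pow_pos hp.pos _) hPpos
    (by rw [hPn]; push_cast; exact le_rfl)
  obtain ⟨a, ha⟩ := hred τ x₀ (C₁ * P) hτ0 hτ
  set y : 𝓞 K := ∑ i, (a i : 𝓞 K) * θ ^ (i : ℕ) * τ with hy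
  set x₁ : 𝓞 K := x₀ - ((p ^ 2 : ℕ) : 𝓞 K) * y with hx₁
  have hτd' : (p : ℤ) ^ m ∣ L₀ τ := by exact_mod_cast hτd
  have hyd : (p : ℤ) ^ m ∣ L₀ y := COREA.stab θ L₀ R lam _ hR τ hτd' d a
  have hx₁d : (p : ℤ) ^ (m + 2) ∣ L₀ x₁ := by
    rw [hx₁, map_sub, ← nsmul_eq_mul, map_nsmul, nsmul_eq_mul]
    refine dvd_sub hx₀ ?_
    push_cast
    rw [pow_add, mul_comm]
    exact mul_dvd_mul_left _ hyd
  have hRx₁ : ¬ (p : ℤ) ∣ R x₁ := by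
    intro h
    apply hRx
    rw [hx₁, map_sub, ← nsmul_eq_mul, map_nsmul, nsmul_eq_mul] at h
    have h2 : (p : ℤ) ∣ ((p ^ 2 : ℕ) : ℤ) * R y := by
      push_cast
      exact Dvd.dvd.mul_right (dvd_pow_self _ two_ne_zero) _
    simpa using dvd_add h h2
  obtain ⟨s, hs1, hs2⟩ := hHENS (𝓞 K) θ p hp L₀ R m lam x₁ hR hx₁d hRx₁ j
  obtain ⟨o, a', b', ha', hb', hab, hab1, hab2, hbox⟩ := hs s
  obtain ⟨w, hw⟩ := hden o
  have hw' : (c₀ : 𝓞 K) * o = ∑ i, (w i : 𝓞 K) * θ ^ (i : ℕ) := by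
    apply RingOfIntegers.ext
    simpa using hw
  set u : 𝓞 K := (1 + (p : 𝓞 K) ^ 2 * θ) ^ s + ((p ^ (j + 3) * c₀ : ℕ) : 𝓞 K) * o with hu
  have hx₁m : (p : ℤ) ^ m ∣ L₀ x₁ := (pow_dvd_pow _ (by omega)).trans hx₁d
  have hsplit : L₀ (u * x₁) = L₀ ((1 + (p : 𝓞 K) ^ 2 * θ) ^ s * x₁) +
      (p : ℤ) ^ (j + 3) * L₀ (∑ i, (w i : 𝓞 K) * θ ^ (i : ℕ) * x₁) := by
    rw [← Finset.sum_mul, ← hw']
    have : u * x₁ = (1 + (p : 𝓞 K) ^ 2 * θ) ^ s * x₁ + (p ^ (j + 3)) • ((c₀ : 𝓞 K) * o * x₁) := by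
      rw [hu, nsmul_eq_mul]; push_cast; ring
    rw [this, map_add, map_nsmul, nsmul_eq_mul]
    push_cast
    rfl
  have hrest : (p : ℤ) ^ (m + 3 + j) ∣
      (p : ℤ) ^ (j + 3) * L₀ (∑ i, (w i : 𝓞 K) * θ ^ (i : ℕ) * x₁) := by
    rw [show m + 3 + j = (j + 3) + m by omega, pow_add]
    exact mul_dvd_mul_left _ (COREA.stab θ L₀ R lam _ hR x₁ hx₁m d w)
  have hd1 : (p : ℤ) ^ (m + 2 + j) ∣ L₀ (u * x₁) := by
    rw [hsplit]
    exact dvd_add hs1 ((pow_dvd_pow _ (by omega)).trans hrest)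
  have hne : L₀ (u * x₁) ≠ 0 := by
    intro h
    apply hs2
    rw [hsplit] at h
    rw [eq_neg_of_add_eq_zero_left h]
    exact hrest.neg_right
  have hpz : (p : ℤ) ≠ 0 := by exact_mod_cast hp.ne_zero
  set D : ℝ := C₂ * (C₁ * P) with hD
  have hD0 : 0 < D := by positivity
  refine ⟨u * x₁, e + (m + 2 + j), a' * D, b' * D, by omega, ?_, ?_, by positivity, by positivity,
    ?_, ?_, ?_, ?_, ?_⟩
  · rw [hL₀]; exact mul_ne_zero (pow_ne_zero _ hpz) hne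
  · rw [hL₀, pow_add]; exact mul_dvd_mul_left _ hd1
  · have h1 : a' * D * (b' * D) ^ n = (a' * b' ^ n) * ((C₂ * C₁) ^ (n + 1) * (p : ℝ) ^ m) := by
      rw [← hPn, hD]; ring
    have h2 : (p : ℝ) ^ (j + m) ≤ (p : ℝ) ^ (e + (m + 2 + j)) :=
      pow_le_pow_right₀ hp1.le (by omega)
    have h3 : (0 : ℝ) < (p : ℝ) ^ m := by positivity
    calc a' * D * (b' * D) ^ n ≤ C₀ * ((C₂ * C₁) ^ (n + 1) * (p : ℝ) ^ m) := by
          rw [h1]; exact mul_le_mul_of_nonneg_right hab (by positivity)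
      _ ≤ η * (p : ℝ) ^ j * (p : ℝ) ^ m := by
          rw [← mul_assoc]; exact mul_le_mul_of_nonneg_right hjj h3.le
      _ = η * (p : ℝ) ^ (j + m) := by rw [pow_add]; ring
      _ ≤ _ := mul_le_mul_of_nonneg_left h2 hη.le
  · exact (mul_le_mul_of_nonneg_right hab1 hD0.le).trans_eq (mul_assoc _ _ _)
  · exact (mul_le_mul_of_nonneg_right hab2 hD0.le).trans_eq (mul_assoc _ _ _)
  · rw [RingOfIntegers.coe_eq_algebraMap, map_mul, map_mul, norm_mul]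
    exact mul_le_mul hbox.1 (ha φ₀) (norm_nonneg _) ha'.le
  · intro φ hφ'
    rw [RingOfIntegers.coe_eq_algebraMap, map_mul, map_mul, norm_mul]
    exact mul_le_mul (hbox.2 φ hφ') (ha φ) (norm_nonneg _) hb'.le

end Pool.Agent.P.MP_246241_nt.IS
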