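import Pool.Agent.P.MP_246241_nt.IS.Iface

/-! Step LINE. -/

set_option autoImplicit false
set_option linter.unusedSectionVars false

namespace Pool.Agent.P.MP_246241_nt.IS

open NumberField

namespace LINEA

open Filter Topology

variable {V : Type} [NormedAddCommGroup V] [NormedSpace ℝ V] [FiniteDimensional ℝ V]

/-- the largest subspace inside a subgroup -/
def core (S : AddSubgroup V) : Submodule ℝ V where
  carrier := {v | ∀ r : ℝ, r • v ∈ S}
  add_mem' := fun {a b} ha hb r => by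
    rw [smul_add]; exact S.add_mem (ha r) (hb r)
  zero_mem' := fun r => by rw [smul_zero]; exact S.zero_mem
  smul_mem' := fun c x hx r => by
    rw [smul_smul]; exact hx _

theorem core_le (S : AddSubgroup V) {v : V} (hv : v ∈ core S) : v ∈ S := by
  have := hv 1
  rwa [one_smul] at this

theorem small_mem (S : AddSubgroup V) (hS : IsClosed (S : Set V)) :
    ∃ δ₀ : ℝ, 0 < δ₀ ∧ ∀ y ∈ S, ‖y‖ < δ₀ → y ∈ core S := by
  by_contra hcon
  push Not at hcon
  choose y hyS hy0 hyc using fun j : ℕ => hcon (1 / ((j : ℝ) + 1)) Nat.one_div_pos_of_nat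
  obtain ⟨W, hW⟩ := (core S).exists_isCompl
  let π : V →ₗ[ℝ] V := W.projection (core S) hW.symm
  have hπ : Continuous π := LinearMap.continuous_of_finiteDimensional π
  have hy : Tendsto y atTop (𝓝 0) := by
    rw [tendsto_zero_iff_norm_tendsto_zero]
    exact squeeze_zero (fun _ => norm_nonneg _) (fun j => (hy0 j).le)
      tendsto_one_div_add_atTop_nhds_zero_nat
  let z : ℕ → V := fun j => π (y j)
  have hz : Tendsto z atTop (𝓝 0) := by
    have := (hπ.tendsto 0).comp hy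
    rwa [map_zero] at this
  have hzW : ∀ j, z j ∈ W := fun j => Submodule.projection_apply_mem hW.symm _
  have hzS : ∀ j, z j ∈ S := fun j => by
    have h1 : y j - z j ∈ core S := Submodule.sub_projection_mem hW.symm _
    have h2 := S.sub_mem (hyS j) (core_le S h1)
    rwa [sub_sub_cancel] at h2
  have hz0 : ∀ j, z j ≠ 0 := fun j h =>
    hyc j ((Submodule.projection_apply_eq_zero_iff hW.symm).1 h)
  have hzn : ∀ j, 0 < ‖z j‖ := fun j => norm_pos_iff.2 (hz0 j)
  let e : ℕ → V := fun j => ‖z j‖⁻¹ • z j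
  have he : ∀ j, e j ∈ Metric.sphere (0 : V) 1 := fun j => by
    rw [mem_sphere_zero_iff_norm]
    simp only [e, norm_smul, norm_inv, norm_norm]
    exact inv_mul_cancel₀ (hzn j).ne'
  have : ProperSpace V := FiniteDimensional.proper_real V
  obtain ⟨v, hv, φ, hφ, hlim⟩ := (isCompact_sphere (0 : V) 1).tendsto_subseq he
  have hvW : v ∈ W := (Submodule.closed_of_finiteDimensional W).mem_of_tendsto hlim
    (Eventually.of_forall fun j => W.smul_mem _ (hzW _))
  have hvc : v ∈ core S := by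
    intro r
    have hn : Tendsto (fun j => ‖z (φ j)‖) atTop (𝓝 0) :=
      tendsto_zero_iff_norm_tendsto_zero.1 (hz.comp hφ.tendsto_atTop)
    have h1 : Tendsto (fun j => (⌊r / ‖z (φ j)‖⌋ : ℝ) * ‖z (φ j)‖) atTop (𝓝 r) := by
      have h2 : Tendsto (fun j => r - ‖z (φ j)‖) atTop (𝓝 r) := by
        simpa using tendsto_const_nhds.sub hn
      refine tendsto_of_tendsto_of_tendsto_of_le_of_le h2 tendsto_const_nhds (fun j => ?_)
        (fun j => ?_)
      · have h3 := Int.sub_one_lt_floor (r / ‖z (φ j)‖)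
        have h4 := mul_le_mul_of_nonneg_right h3.le (hzn (φ j)).le
        rwa [sub_mul, div_mul_cancel₀ _ (hzn (φ j)).ne', one_mul] at h4
      · have h3 := Int.floor_le (r / ‖z (φ j)‖)
        have h4 := mul_le_mul_of_nonneg_right h3 (hzn (φ j)).le
        rwa [div_mul_cancel₀ _ (hzn (φ j)).ne'] at h4
    refine hS.mem_of_tendsto (h1.smul hlim) (Eventually.of_forall fun j => ?_)
    have h5 : ((⌊r / ‖z (φ j)‖⌋ : ℝ) * ‖z (φ j)‖) • (e ∘ φ) j = ⌊r / ‖z (φ j)‖⌋ • z (φ j) := by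
      simp only [e, Function.comp, smul_smul]
      rw [mul_assoc, mul_inv_cancel₀ (hzn (φ j)).ne', mul_one, Int.cast_smul_eq_zsmul]
    rw [h5]
    exact S.zsmul_mem (hzS _) _
  have hv0 : v = 0 := by
    have : v ∈ core S ⊓ W := ⟨hvc, hvW⟩
    rwa [hW.inf_eq_bot, Submodule.mem_bot] at this
  rw [mem_sphere_zero_iff_norm, hv0, norm_zero] at hv
  exact zero_ne_one hv

/-- the sum of the subgroup and the line -/
def line (Γ : AddSubgroup V) (w : V) : AddSubgroup V where
  carrier := {y | ∃ u ∈ Γ, ∃ t : ℝ, y = u + t • w}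
  add_mem' := by
    rintro _ _ ⟨u, hu, t, rfl⟩ ⟨u', hu', t', rfl⟩
    exact ⟨u + u', Γ.add_mem hu hu', t + t', by rw [add_smul]; abel⟩
  zero_mem' := ⟨0, Γ.zero_mem, 0, by simp⟩
  neg_mem' := by
    rintro _ ⟨u, hu, t, rfl⟩
    exact ⟨-u, Γ.neg_mem hu, -t, by rw [neg_smul]; abel⟩

end LINEA

theorem p_LINE :
    S_LINE := by
  intro V _ _ _ Γ w
  let S := (LINEA.line Γ w).topologicalClosure
  have hle : ∀ u ∈ Γ, ∀ t : ℝ, u + t • w ∈ S := fun u hu t =>
    (LINEA.line Γ w).le_topologicalClosure ⟨u, hu, t, rfl⟩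
  obtain ⟨δ₀, hδ₀, h⟩ := LINEA.small_mem S (LINEA.line Γ w).isClosed_topologicalClosure
  refine ⟨δ₀, hδ₀, fun u hu t ht N hN δ hδ => ?_⟩
  have hN' : (0 : ℝ) < N := Nat.cast_pos.2 hN
  have h1 : u - t • w ∈ LINEA.core S := by
    refine h _ ?_ ht
    have := hle u hu (-t)
    rwa [neg_smul, ← sub_eq_add_neg] at this
  have h2 : (N : ℝ)⁻¹ • (u - t • w) ∈ closure (LINEA.line Γ w : Set V) := h1 _
  obtain ⟨_, ⟨u', hu', t', rfl⟩, hd⟩ := Metric.mem_closure_iff.1 h2 (δ / N) (div_pos hδ hN')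
  refine ⟨u', hu', t + N * t', ?_⟩
  have h3 : u - (N : ℝ) • u' - (t + N * t') • w =
      (N : ℝ) • ((N : ℝ)⁻¹ • (u - t • w) - (u' + t' • w)) := by
    rw [smul_sub, smul_smul, mul_inv_cancel₀ hN'.ne', one_smul, smul_add, smul_smul, add_smul]
    abel
  rw [h3, norm_smul, Real.norm_of_nonneg hN'.le, ← dist_eq_norm]
  rwa [lt_div_iff₀' hN'] at hd

end Pool.Agent.P.MP_246241_nt.IS
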